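import Pool.Agent.Lib.MP_743d1e_nt.W.Defs
import Pool.Agent.Lib.MP_743d1e_nt.U.ASU

/-!
# ASW: uniform asymptotics of the regulator integrals
-/

set_option autoImplicit false

namespace MP743d1e.W.ASWM

open scoped BigOperators
open MP743d1e.Circ MP743d1e.Asym MP743d1e.U

/-- the constant for the lines other than the `j`-th one -/
noncomputable def k1 : ℝ := 3 + 2 * Real.log 2

/-- the constant for all lines -/
noncomputable def k2 (m n : ℕ) : ℝ := m * (1 + Real.log 2) + n * k1 + k1

theorem log2_nonneg : 0 ≤ Real.log 2 := Real.log_nonneg (by norm_num)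

theorem k1_nonneg : 0 ≤ k1 := by
  unfold k1
  have h1 := log2_nonneg
  linarith

theorem abs_log_sub_le {z d : ℝ} (hd : 0 < d) (h1 : d / 2 ≤ z) (h2 : z ≤ 2 * d) :
    |Real.log z - Real.log d| ≤ Real.log 2 := by
  have hz : 0 < z := lt_of_lt_of_le (by positivity) h1
  have h3 := Real.log_le_log (by positivity) h1
  have h4 := Real.log_le_log hz h2
  rw [Real.log_div hd.ne' (by norm_num)] at h3
  rw [Real.log_mul (by norm_num) hd.ne'] at h4
  rw [abs_le]
  constructor <;> linarith

variable {D : Arr} {j : Fin D.n} {c : ℤ} {R : ℝ}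

theorem bt_self (D : Arr) (R : ℝ) (j : Fin D.n) (c : ℤ) : bt D R j j c = 0 := by
  unfold bt nu zt lw
  simp

theorem ind_self (D : Arr) (j : Fin D.n) (c : ℤ) : ind D j j c = 0 := by
  unfold ind
  simp

theorem log_circ (h0 : 0 < R) {s : ℤ} (h : s ≠ c → 4 * R ≤ |(c : ℝ) - s|) (θ : ℝ) :
    |Real.log ‖circ c R θ - (s : ℂ)‖ - Real.log R - xi R c s| ≤ Real.log 2 := by
  by_cases hs : s = c
  · subst hs
    have h1 : circ s R θ - (s : ℂ) = (R : ℂ) * Complex.exp (θ * Complex.I) := by simp [circ]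
    rw [h1, norm_exp_mul θ h0.le]
    unfold xi
    rw [sub_self, sub_self, abs_zero, zero_div, Real.log_zero, sub_zero, abs_zero]
    exact log2_nonneg
  · have h2 := h hs
    set d : ℝ := |(c : ℝ) - s| with hd
    have hd0 : 0 < d := by linarith
    have hn : ‖((c - s : ℤ) : ℂ)‖ = d := by
      rw [Complex.norm_intCast]; push_cast; rfl
    have h3 : circ c R θ - (s : ℂ) = ((c - s : ℤ) : ℂ) + (R : ℂ) * Complex.exp (θ * Complex.I) := by
      simp only [circ]; push_cast; ring
    have h4 := norm_sub_le_norm_add ((c - s : ℤ) : ℂ) ((R : ℂ) * Complex.exp (θ * Complex.I))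
    have h5 := norm_add_le ((c - s : ℤ) : ℂ) ((R : ℂ) * Complex.exp (θ * Complex.I))
    rw [norm_exp_mul θ h0.le, hn, ← h3] at h4 h5
    have h6 : Real.log R + xi R c s = Real.log d := by
      unfold xi
      rw [← hd, Real.log_div hd0.ne' h0.ne']; ring
    have h7 : Real.log ‖circ c R θ - (s : ℂ)‖ - Real.log R - xi R c s =
        Real.log ‖circ c R θ - (s : ℂ)‖ - Real.log d := by rw [← h6]; ring
    rw [h7]
    exact abs_log_sub_le hd0 (by linarith) (by linarith)

theorem log_b (hG : GD D j c R) (l : Fin D.n) (hl : l ≠ j) (θ : ℝ) :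
    |Real.log ‖D.b j (circ c R θ) - D.b l (circ c R θ)‖ - Real.log R - bt D R j l c| ≤
      Real.log 2 := by
  have h0 := hG.pos
  have hl2 := log2_nonneg
  by_cases hp : D.p j = D.p l
  · rw [GD.sub_b_par D j l _ hp, Complex.norm_intCast]
    unfold bt nu zt lw
    rw [if_pos hp, if_pos hp, if_pos hp]
    push_cast
    have h4 := hG.qfar l hl hp
    have h5 : 0 < |(D.q j : ℝ) - D.q l| := by linarith
    rw [Real.log_div h5.ne' h0.ne', add_zero, add_zero, sub_sub, add_sub_cancel, sub_self,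
      abs_zero]
    exact hl2
  · rw [GD.sub_b D j l _ hp, norm_mul]
    unfold bt nu zt lw
    rw [if_neg hp, if_neg hp, if_neg hp, zero_add]
    have h1 : (1 : ℝ) ≤ ‖((D.p j - D.p l : ℤ) : ℂ)‖ := norm_int_ge_one (by omega)
    have h3 := K2UM.circ_lo h0 le_rfl (hG.rfar l hp) θ
    have h4 : 0 < ‖circ c R θ - (D.r j l : ℂ)‖ := by linarith
    rw [Real.log_mul (by linarith) h4.ne']
    have h5 := log_circ (c := c) h0 (hG.rfar l hp) θ
    have h6 : Real.log ‖((D.p j - D.p l : ℤ) : ℂ)‖ = Real.log |(D.p j : ℝ) - D.p l| := by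
      rw [Complex.norm_intCast]
      push_cast
      rfl
    rw [h6]
    rw [abs_le] at h5 ⊢
    constructor <;> linarith [h5.1, h5.2]

/-- the bounds for a line different from the `j`-th one -/
theorem bounds_ne (hG : GD D j c R) {C : ℝ} (hC : 0 < C) {lam : ℤ}
    (hlam : 2 * C ≤ lamR D lam R) {Y : ℝ → ℂ} (hY : ShU D lam j c R C Y) (l : Fin D.n)
    (hl : l ≠ j) (θ : ℝ) : Y θ - D.b l (circ c R θ) ≠ 0 ∧
        ‖logDeriv (fun t => Y t - D.b l (circ c R t)) θ‖ ≤ k1 ∧
        |Real.log ‖Y θ - D.b l (circ c R θ)‖ - Real.log R - bt D R j l c| ≤ k1 ∧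
        ‖(Y θ - D.b l (circ c R θ)) / (D.b j (circ c R θ) - D.b l (circ c R θ)) - 1‖ < 1 := by
  have h0 := hG.pos
  have hpos : 0 < lamR D lam R := by linarith
  have hlog2 := log2_nonneg
  have hC1 : C * R / lamR D lam R ≤ R / 2 := by
    rw [div_le_iff₀ hpos]
    nlinarith
  have hn := (hY.near θ).trans hC1
  have hn' := (hY.near' θ).trans hC1
  have hlow := hG.blo l hl θ
  set B : ℂ := D.b j (circ c R θ) - D.b l (circ c R θ) with hB
  have hB0 : 0 < ‖B‖ := by linarith
  have hsplit : Y θ - D.b l (circ c R θ) =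
      (Y θ - D.b j (circ c R θ)) + B := by rw [hB]; ring
  have hZlow : ‖B‖ / 2 ≤ ‖Y θ - D.b l (circ c R θ)‖ := by
    rw [hsplit]
    have := norm_sub_le_norm_add B (Y θ - D.b j (circ c R θ))
    rw [add_comm] at this
    linarith
  have hZup : ‖Y θ - D.b l (circ c R θ)‖ ≤ 2 * ‖B‖ := by
    rw [hsplit]
    refine (norm_add_le _ _).trans ?_
    linarith
  have hZlow' : R / 2 ≤ ‖Y θ - D.b l (circ c R θ)‖ := by linarith
  have hZpos : 0 < ‖Y θ - D.b l (circ c R θ)‖ := by linarith
  refine ⟨norm_pos_iff.1 hZpos, ?_, ?_, ?_⟩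
  · have hYd : DifferentiableAt ℝ Y θ := (hY.smooth.differentiable (by norm_num)) θ
    have hYd' := hYd.hasDerivAt
    have e1 : deriv (fun t => Y t - D.b j (circ c R t)) θ =
        deriv Y θ - (D.p j : ℂ) * (Complex.I * (circ c R θ - (c : ℂ))) :=
      (hYd'.sub (hasDerivAt_b D c R θ j)).deriv
    have e2 : deriv (fun t => Y t - D.b l (circ c R t)) θ =
        deriv Y θ - (D.p l : ℂ) * (Complex.I * (circ c R θ - (c : ℂ))) :=
      (hYd'.sub (hasDerivAt_b D c R θ l)).deriv
    have e3 : deriv (fun t => Y t - D.b l (circ c R t)) θ =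
        deriv (fun t => Y t - D.b j (circ c R t)) θ +
        ((D.p j : ℂ) * (Complex.I * (circ c R θ - (c : ℂ))) -
        (D.p l : ℂ) * (Complex.I * (circ c R θ - (c : ℂ)))) := by
      rw [e1, e2]; ring
    rw [logDeriv_apply, e3, add_div]
    refine (norm_add_le _ _).trans ?_
    rw [norm_div, norm_div]
    have h8 := hG.bder l θ
    rw [← hB] at h8
    have h9 : ‖deriv (fun t => Y t - D.b j (circ c R t)) θ‖ /
        ‖Y θ - D.b l (circ c R θ)‖ ≤ 1 := by
      rw [div_le_one hZpos]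
      linarith
    have h10 : ‖(D.p j : ℂ) * (Complex.I * (circ c R θ - (c : ℂ))) -
        (D.p l : ℂ) * (Complex.I * (circ c R θ - (c : ℂ)))‖ /
        ‖Y θ - D.b l (circ c R θ)‖ ≤ 2 := by
      rw [div_le_iff₀ hZpos]
      linarith
    unfold k1
    linarith
  · have h3 := abs_log_sub_le hB0 hZlow hZup
    have h4 := log_b hG l hl θ
    rw [← hB] at h4
    unfold k1
    rw [abs_le] at h3 h4 ⊢
    constructor <;> linarith [h3.1, h3.2, h4.1, h4.2]
  · have h3 : (Y θ - D.b l (circ c R θ)) / B - 1 = (Y θ - D.b j (circ c R θ)) / B := by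
      rw [hsplit, add_div, div_self (norm_pos_iff.1 hB0)]; ring
    rw [h3, norm_div, div_lt_one hB0]
    linarith

theorem hXne (hG : GD D j c R) (t : ℝ) (i : Fin D.m) : circ c R t - (D.a i : ℂ) ≠ 0 := by
  rw [← norm_pos_iff]
  exact lt_of_lt_of_le hG.pos (hG.alo i t)

theorem hall {C : ℝ} {lam : ℤ} {Y : ℝ → ℂ} (hY : ShU D lam j c R C Y) (t : ℝ) (l : Fin D.n) :
    Y t - D.b l (circ c R t) ≠ 0 := by
  have h2 := hY.eqn t
  have h3 : ∏ l, (Y t - D.b l (circ c R t)) ≠ 0 := by
    intro h; rw [h, mul_zero] at h2; exact zero_ne_one h2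
  exact (Finset.prod_ne_zero_iff.1 h3) l (Finset.mem_univ l)

theorem lam_ne {C : ℝ} {lam : ℤ} {Y : ℝ → ℂ} (hY : ShU D lam j c R C Y) : (lam : ℂ) ≠ 0 := by
  intro h
  have := hY.eqn 0
  rw [h, zero_mul, zero_mul] at this
  exact zero_ne_one this

/-- the logarithmic derivative of the equation -/
theorem logDeriv_j (hG : GD D j c R) {C : ℝ} {lam : ℤ} {Y : ℝ → ℂ}
    (hY : ShU D lam j c R C Y) (θ : ℝ) :
    logDeriv (fun t => Y t - D.b j (circ c R t)) θ =
        -((∑ i, logDeriv (fun t => circ c R t - (D.a i : ℂ)) θ) +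
          ∑ l ∈ Finset.univ.erase j, logDeriv (fun t => Y t - D.b l (circ c R t)) θ) := by
  have hlam0 := lam_ne hY
  have hdX : ∀ i : Fin D.m, DifferentiableAt ℝ (fun t => circ c R t - (D.a i : ℂ)) θ :=
    fun i => ((hasDerivAt_circ c R θ).differentiableAt).sub_const _
  have hdZ : ∀ l, DifferentiableAt ℝ (fun t => Y t - D.b l (circ c R t)) θ := fun l =>
    ((hY.smooth.differentiable (by norm_num)) θ).sub (hasDerivAt_b D c R θ l).differentiableAt
  have h2 : logDeriv (fun t => ((lam : ℂ) * (∏ i, (circ c R t - (D.a i : ℂ)))) *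
      (∏ l, (Y t - D.b l (circ c R t)))) θ = 0 := by
    have : (fun t => ((lam : ℂ) * (∏ i, (circ c R t - (D.a i : ℂ)))) *
      (∏ l, (Y t - D.b l (circ c R t)))) = fun _ => (1 : ℂ) := by
      funext t
      exact hY.eqn t
    rw [this, logDeriv_const]
    rfl
  have hprodX : DifferentiableAt ℝ (fun t => ∏ i, (circ c R t - (D.a i : ℂ))) θ :=
    DifferentiableAt.fun_finsetProd (fun i _ => hdX i)
  have hprodZ : DifferentiableAt ℝ (fun t => ∏ l, (Y t - D.b l (circ c R t))) θ :=
    DifferentiableAt.fun_finsetProd (fun l _ => hdZ l)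
  rw [logDeriv_mul (f := fun t => (lam : ℂ) * (∏ i, (circ c R t - (D.a i : ℂ))))
      (g := fun t => ∏ l, (Y t - D.b l (circ c R t))) θ
      (mul_ne_zero hlam0 (Finset.prod_ne_zero_iff.2 fun i _ => hXne hG θ i))
    (Finset.prod_ne_zero_iff.2 fun l _ => hall hY θ l) (hprodX.const_mul _) hprodZ,
    logDeriv_const_mul (f := fun t => ∏ i, (circ c R t - (D.a i : ℂ))) θ _ hlam0,
    logDeriv_prod (f := fun i t => circ c R t - (D.a i : ℂ)) (fun i _ => hXne hG θ i)
      (fun i _ => hdX i),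
    logDeriv_prod (f := fun l t => Y t - D.b l (circ c R t)) (fun l _ => hall hY θ l)
      (fun l _ => hdZ l),
    ← Finset.add_sum_erase _ _ (Finset.mem_univ j)] at h2
  linear_combination h2

/-- the bounds for the `j`-th line -/
theorem bounds_eq (hG : GD D j c R) {C : ℝ} (hC : 0 < C) {lam : ℤ}
    (hlam : 2 * C ≤ lamR D lam R) {Y : ℝ → ℂ} (hY : ShU D lam j c R C Y) (θ : ℝ) :
        ‖logDeriv (fun t => Y t - D.b j (circ c R t)) θ‖ ≤ k2 D.m D.n ∧
        |Real.log ‖Y θ - D.b j (circ c R θ)‖ - Real.log R +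
          Lam D R (Real.log (lamR D lam R)) j c| ≤ k2 D.m D.n := by
  have h0 := hG.pos
  have hk1 := k1_nonneg
  have hlog2 := log2_nonneg
  have hpos : 0 < lamR D lam R := by linarith
  have hlam0 := lam_ne hY
  have hlamR : |(lam : ℝ)| ≠ 0 := by
    intro h
    unfold lamR at hpos
    rw [h, zero_mul] at hpos
    exact lt_irrefl _ hpos
  have hcard : ((Finset.univ.erase j).card : ℝ) ≤ D.n := by
    have h7 := Finset.card_le_univ (Finset.univ.erase j)
    rw [Fintype.card_fin] at h7
    exact_mod_cast h7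
  have hsumk : ∑ l ∈ Finset.univ.erase j, k1 ≤ D.n * k1 := by
    rw [Finset.sum_const, nsmul_eq_mul]
    gcongr
  refine ⟨?_, ?_⟩
  · rw [logDeriv_j hG hY, norm_neg]
    refine (norm_add_le _ _).trans ?_
    have b1 : ‖∑ i, logDeriv (fun t => circ c R t - (D.a i : ℂ)) θ‖ ≤ D.m := by
      refine (norm_sum_le_of_le _ (n := fun _ => (1 : ℝ)) ?_).trans ?_
      · intro i _
        rw [logDeriv_apply, ((hasDerivAt_circ c R θ).sub_const _).deriv, norm_div,
          norm_deriv_circ h0]
        exact (div_le_one (lt_of_lt_of_le h0 (hG.alo i θ))).2 (hG.alo i θ)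
      · simp
    have b2 : ‖∑ l ∈ Finset.univ.erase j, logDeriv (fun t => Y t - D.b l (circ c R t)) θ‖ ≤
        D.n * k1 := by
      refine (norm_sum_le_of_le _ (n := fun _ => k1) ?_).trans hsumk
      intro l hl
      exact (bounds_ne hG hC hlam hY l (Finset.ne_of_mem_erase hl) θ).2.1
    have b3 : (0 : ℝ) ≤ D.m * Real.log 2 := by positivity
    unfold k2
    linarith
  · -- logarithm
    have h2 := congrArg (fun z : ℂ => Real.log ‖z‖) (hY.eqn θ)
    simp only [norm_mul, norm_one, Real.log_one, norm_prod] at h2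
    rw [Real.log_mul, Real.log_mul, Real.log_prod, Real.log_prod,
      ← Finset.add_sum_erase _ _ (Finset.mem_univ j)] at h2
    rotate_left
    · intro l _; exact norm_ne_zero_iff.2 (hall hY θ l)
    · intro i _; exact norm_ne_zero_iff.2 (hXne hG θ i)
    · exact norm_ne_zero_iff.2 hlam0
    · exact Finset.prod_ne_zero_iff.2 fun i _ => norm_ne_zero_iff.2 (hXne hG θ i)
    · exact mul_ne_zero (norm_ne_zero_iff.2 hlam0)
        (Finset.prod_ne_zero_iff.2 fun i _ => norm_ne_zero_iff.2 (hXne hG θ i))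
    · exact Finset.prod_ne_zero_iff.2 fun l _ => norm_ne_zero_iff.2 (hall hY θ l)
    have hcardeq : ((Finset.univ.erase j).card : ℝ) = D.n - 1 := by
      rw [Finset.card_erase_of_mem (Finset.mem_univ j), Finset.card_univ, Fintype.card_fin,
        Nat.cast_sub (by have := D.hn; omega), Nat.cast_one]
    have hbt : ∑ l, bt D R j l c = ∑ l ∈ Finset.univ.erase j, bt D R j l c := by
      rw [← Finset.add_sum_erase _ _ (Finset.mem_univ j), bt_self, zero_add]
    have h3 : Real.log ‖Y θ - D.b j (circ c R θ)‖ - Real.log R +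
          Lam D R (Real.log (lamR D lam R)) j c =
        -((∑ i, (Real.log ‖circ c R θ - (D.a i : ℂ)‖ - Real.log R - xi R c (D.a i))) +
          ∑ l ∈ Finset.univ.erase j,
            (Real.log ‖Y θ - D.b l (circ c R θ)‖ - Real.log R - bt D R j l c)) := by
      rw [Complex.norm_intCast] at h2
      unfold Lam lamR
      rw [hbt, Real.log_mul hlamR (by positivity), Real.log_pow, Finset.sum_sub_distrib,
        Finset.sum_sub_distrib, Finset.sum_sub_distrib,
        Finset.sum_sub_distrib, Finset.sum_const, Finset.sum_const, nsmul_eq_mul, nsmul_eq_mul,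
        hcardeq, Finset.card_univ, Fintype.card_fin]
      push_cast
      linear_combination h2
    rw [h3, abs_neg]
    refine (abs_add_le _ _).trans ?_
    have b1 : |∑ i, (Real.log ‖circ c R θ - (D.a i : ℂ)‖ - Real.log R - xi R c (D.a i))| ≤
        D.m * Real.log 2 := by
      refine (Finset.abs_sum_le_sum_abs _ _).trans ?_
      calc ∑ i, |Real.log ‖circ c R θ - (D.a i : ℂ)‖ - Real.log R - xi R c (D.a i)|
          ≤ ∑ _i : Fin D.m, Real.log 2 := by
            apply Finset.sum_le_sum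
            intro i _
            exact log_circ h0 (hG.afar i) θ
        _ = D.m * Real.log 2 := by simp
    have b2 : |∑ l ∈ Finset.univ.erase j,
        (Real.log ‖Y θ - D.b l (circ c R θ)‖ - Real.log R - bt D R j l c)| ≤ D.n * k1 := by
      refine (Finset.abs_sum_le_sum_abs _ _).trans ((Finset.sum_le_sum ?_).trans hsumk)
      intro l hl
      exact (bounds_ne hG hC hlam hY l (Finset.ne_of_mem_erase hl) θ).2.2.1
    have b3 : (0 : ℝ) ≤ D.m := Nat.cast_nonneg _
    unfold k2
    linarith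

/-- the bounds for all lines -/
theorem bounds (hG : GD D j c R) {C : ℝ} (hC : 0 < C) {lam : ℤ}
    (hlam : 2 * C ≤ lamR D lam R) {Y : ℝ → ℂ} (hY : ShU D lam j c R C Y) (l : Fin D.n) (θ : ℝ) :
        ‖logDeriv (fun t => Y t - D.b l (circ c R t)) θ‖ ≤ k2 D.m D.n ∧
        |Real.log ‖Y θ - D.b l (circ c R θ)‖ - Real.log R -
          YY D R (Real.log (lamR D lam R)) j c l| ≤ k2 D.m D.n := by
  by_cases hl : l = j
  · subst hl
    have h1 : YY D R (Real.log (lamR D lam R)) l c l =
        -Lam D R (Real.log (lamR D lam R)) l c := by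
      unfold YY; rw [bt_self]; simp
    rw [h1, sub_neg_eq_add]
    exact bounds_eq hG hC hlam hY θ
  · obtain ⟨-, h2, h3, -⟩ := bounds_ne hG hC hlam hY l hl θ
    have hk1 := k1_nonneg
    have hlog2 := log2_nonneg
    have h4 : k1 ≤ k2 D.m D.n := by
      unfold k2
      have : 0 ≤ (D.m : ℝ) * (1 + Real.log 2) := by positivity
      have : 0 ≤ (D.n : ℝ) * k1 := by positivity
      linarith
    have h5 : YY D R (Real.log (lamR D lam R)) j c l = bt D R j l c := by
      unfold YY; rw [if_neg hl, sub_zero]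
    rw [h5]
    exact ⟨h2.trans h4, h3.trans h4⟩

/-- a closed path close to `1` has winding number zero -/
theorem integral_near_one {g : ℝ → ℂ} (hg : ContDiff ℝ 1 g)
    (hper : ∀ θ, g (θ + 2 * Real.pi) = g θ) (h1 : ∀ θ, ‖g θ - 1‖ < 1) :
    ∫ θ in (0 : ℝ)..(2 * Real.pi), (logDeriv g θ).im = 0 := by
  have hslit : ∀ θ, g θ ∈ Complex.slitPlane := by
    intro θ
    have h2 : g θ = 1 + (g θ - 1) := by ring
    rw [h2]
    exact Complex.mem_slitPlane_of_norm_lt_one (h1 θ)
  have hne : ∀ θ, g θ ≠ 0 := fun θ => Complex.slitPlane_ne_zero (hslit θ)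
  have hd : ∀ θ, HasDerivAt (fun t => Complex.log (g t)) (deriv g θ / g θ) θ := fun θ =>
    ((hg.differentiable (by norm_num)) θ).hasDerivAt.clog_real (hslit θ)
  have hcont : Continuous fun θ => deriv g θ / g θ :=
    (hg.continuous_deriv le_rfl).div hg.continuous hne
  have h6 : ∫ θ in (0 : ℝ)..(2 * Real.pi), deriv g θ / g θ = 0 := by
    rw [intervalIntegral.integral_eq_sub_of_hasDerivAt (fun θ _ => hd θ)
      (hcont.intervalIntegrable _ _)]
    have h7 : g (2 * Real.pi) = g 0 := by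
      have := hper 0
      rwa [zero_add] at this
    rw [h7, sub_self]
  have h8 := (Complex.imCLM).intervalIntegral_comp_comm (hcont.intervalIntegrable
    (μ := MeasureTheory.volume) 0 (2 * Real.pi))
  rw [h6] at h8
  simp only [logDeriv_apply]
  simpa using h8

/-- the winding numbers of `y - b l` for `l ≠ j` -/
theorem wind_ne (hG : GD D j c R) {C : ℝ} (hC : 0 < C) {lam : ℤ}
    (hlam : 2 * C ≤ lamR D lam R) {Y : ℝ → ℂ} (hY : ShU D lam j c R C Y) (l : Fin D.n)
    (hl : l ≠ j) :
    ∫ θ in (0 : ℝ)..(2 * Real.pi), (logDeriv (fun t => Y t - D.b l (circ c R t)) θ).im =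
      2 * Real.pi * ind D j l c := by
  have h0 := hG.pos
  set B : ℝ → ℂ := fun t => D.b j (circ c R t) - D.b l (circ c R t) with hB
  set Z : ℝ → ℂ := fun t => Y t - D.b l (circ c R t) with hZ
  have hBne : ∀ θ, B θ ≠ 0 := fun θ => by
    rw [← norm_pos_iff]; exact lt_of_lt_of_le h0 (hG.blo l hl θ)
  have hBc : ContDiff ℝ 1 B := (contDiff_b D c R j).sub (contDiff_b D c R l)
  have hZc : ContDiff ℝ 1 Z := hY.smooth.sub (contDiff_b D c R l)
  have hZne : ∀ θ, Z θ ≠ 0 := fun θ => hall hY θ l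
  set g : ℝ → ℂ := fun t => Z t / B t with hg
  have hgc : ContDiff ℝ 1 g := by
    have e : g = fun t => Z t * (B t)⁻¹ := by funext t; exact div_eq_mul_inv _ _
    rw [e]
    exact hZc.mul (hBc.inv hBne)
  have hgne : ∀ θ, g θ ≠ 0 := fun θ => div_ne_zero (hZne θ) (hBne θ)
  have hgper : ∀ θ, g (θ + 2 * Real.pi) = g θ := by
    intro θ
    simp only [hg, hZ, hB, circ_periodic, hY.periodic]
  have hg1 : ∀ θ, ‖g θ - 1‖ < 1 := fun θ => (bounds_ne hG hC hlam hY l hl θ).2.2.2
  have hsplit : ∀ θ, (logDeriv Z θ).im = (logDeriv B θ).im + (logDeriv g θ).im := by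
    intro θ
    have e1 : Z = fun t => B t * g t := by
      funext t
      simp only [hg]
      rw [mul_div_cancel₀ _ (hBne t)]
    rw [e1, logDeriv_mul (f := B) (g := g) θ (hBne θ) (hgne θ)
      ((hBc.differentiable (by norm_num)) θ) ((hgc.differentiable (by norm_num)) θ),
      Complex.add_im]
  have hBint : ∫ θ in (0 : ℝ)..(2 * Real.pi), (logDeriv B θ).im =
      2 * Real.pi * ind D j l c := by
    by_cases hp : D.p j = D.p l
    · have e1 : B = fun _ => ((D.q j - D.q l : ℤ) : ℂ) := by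
        funext t; exact GD.sub_b_par D j l _ hp
      have e2 : ind D j l c = 0 := by unfold ind; simp [hp]
      rw [e1, e2, logDeriv_const]
      simp
    · have e1 : B = fun t => ((D.p j - D.p l : ℤ) : ℂ) * (circ c R t - (D.r j l : ℂ)) := by
        funext t; exact GD.sub_b D j l _ hp
      have hp' : ((D.p j - D.p l : ℤ) : ℂ) ≠ 0 := by
        exact_mod_cast sub_ne_zero.2 hp
      have e2 : ∀ θ, logDeriv B θ = logDeriv (fun t => circ c R t - (D.r j l : ℂ)) θ := by
        intro θ
        rw [e1, logDeriv_const_mul (f := fun t => circ c R t - (D.r j l : ℂ)) θ _ hp']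
      simp only [e2]
      rw [ASUM.integral_logDeriv_circ h0 c (D.r j l)
        (fun θ => K2UM.circ_lo h0 le_rfl (hG.rfar l hp) θ)]
      unfold ind
      simp [hp]
  simp only [hsplit]
  rw [intervalIntegral.integral_add ((continuous_logDeriv hBc hBne).intervalIntegrable _ _)
    ((continuous_logDeriv hgc hgne).intervalIntegrable _ _), hBint,
    integral_near_one hgc hgper hg1, add_zero]

/-- the winding numbers of `x - s` -/
theorem wind_x (h0 : 0 < R) {s : ℤ} (h : s ≠ c → 4 * R ≤ |(c : ℝ) - s|) :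
    ∫ θ in (0 : ℝ)..(2 * Real.pi), (logDeriv (fun t => circ c R t - (s : ℂ)) θ).im =
      2 * Real.pi * dl c s := by
  rw [ASUM.integral_logDeriv_circ h0 c s (fun θ => K2UM.circ_lo h0 le_rfl h θ)]
  rfl

/-- the winding numbers of all `y - b l` -/
theorem wind (hG : GD D j c R) {C : ℝ} (hC : 0 < C) {lam : ℤ}
    (hlam : 2 * C ≤ lamR D lam R) {Y : ℝ → ℂ} (hY : ShU D lam j c R C Y) (l : Fin D.n) :
    ∫ θ in (0 : ℝ)..(2 * Real.pi), (logDeriv (fun t => Y t - D.b l (circ c R t)) θ).im =
      2 * Real.pi * om D j c l := by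
  have h0 := hG.pos
  by_cases hl : l = j
  · subst hl
    have hXc : ∀ i : Fin D.m, ContDiff ℝ 1 (fun t => circ c R t - (D.a i : ℂ)) := fun i =>
      (contDiff_circ c R).sub contDiff_const
    have hZc : ∀ h : Fin D.n, ContDiff ℝ 1 (fun t => Y t - D.b h (circ c R t)) := fun h =>
      hY.smooth.sub (contDiff_b D c R h)
    have hIX : ∀ i : Fin D.m, IntervalIntegrable
        (fun θ => (logDeriv (fun t => circ c R t - (D.a i : ℂ)) θ).im)
        MeasureTheory.volume 0 (2 * Real.pi) := fun i =>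
      (continuous_logDeriv (hXc i) (fun θ => hXne hG θ i)).intervalIntegrable _ _
    have hIZ : ∀ h : Fin D.n, IntervalIntegrable
        (fun θ => (logDeriv (fun t => Y t - D.b h (circ c R t)) θ).im)
        MeasureTheory.volume 0 (2 * Real.pi) := fun h =>
      (continuous_logDeriv (hZc h) (fun θ => hall hY θ h)).intervalIntegrable _ _
    have h1 : ∀ θ, (logDeriv (fun t => Y t - D.b l (circ c R t)) θ).im =
        -((∑ i, (logDeriv (fun t => circ c R t - (D.a i : ℂ)) θ).im) +
          ∑ h ∈ Finset.univ.erase l, (logDeriv (fun t => Y t - D.b h (circ c R t)) θ).im) := by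
      intro θ
      rw [logDeriv_j hG hY, Complex.neg_im, Complex.add_im, Complex.im_sum, Complex.im_sum]
    simp only [h1]
    have hI1 : IntervalIntegrable
        (fun θ => ∑ i, (logDeriv (fun t => circ c R t - (D.a i : ℂ)) θ).im)
        MeasureTheory.volume 0 (2 * Real.pi) := by
      apply Continuous.intervalIntegrable
      exact continuous_finsetSum _ fun i _ => continuous_logDeriv (hXc i) (fun θ => hXne hG θ i)
    have hI2 : IntervalIntegrable
        (fun θ => ∑ h ∈ Finset.univ.erase l, (logDeriv (fun t => Y t - D.b h (circ c R t)) θ).im)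
        MeasureTheory.volume 0 (2 * Real.pi) := by
      apply Continuous.intervalIntegrable
      exact continuous_finsetSum _ fun h _ => continuous_logDeriv (hZc h) (fun θ => hall hY θ h)
    rw [intervalIntegral.integral_neg, intervalIntegral.integral_add hI1 hI2,
      intervalIntegral.integral_finsetSum (fun i _ => hIX i),
      intervalIntegral.integral_finsetSum (fun h _ => hIZ h),
      Finset.sum_congr rfl (fun i _ => wind_x h0 (hG.afar i)),
      Finset.sum_congr rfl (fun h hh =>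
        wind_ne hG hC hlam hY h (Finset.ne_of_mem_erase hh))]
    unfold om wj
    rw [if_pos rfl, ind_self, ← Finset.add_sum_erase _ (fun h => ind D l h c) (Finset.mem_univ l),
      ind_self, ← Finset.mul_sum, ← Finset.mul_sum]
    ring
  · rw [wind_ne hG hC hlam hY l hl]
    unfold om
    rw [if_neg hl, sub_zero]

end MP743d1e.W.ASWM

namespace MP743d1e.W

open ASWM MP743d1e.Circ MP743d1e.Asym MP743d1e.U

/-- ASW -/
theorem specASW : SpecASW := by
  intro m n C hC
  have hk2 : 0 ≤ k2 m n := by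
    have h1 := k1_nonneg
    have h2 := log2_nonneg
    unfold k2
    positivity
  have hl2 := log2_nonneg
  refine ⟨((Real.log 2 + Real.log 2) * (k2 m n + k2 m n) + (k2 m n + k2 m n) * 2) *
    |2 * Real.pi - 0|, 2 * C, by positivity, by positivity, ?_⟩
  rintro D rfl rfl j c R hG s i0 l l' hs lam hlam Y hY
  have h0 := hG.pos
  set L0 : ℝ := Real.log (lamR D lam R) with hL0
  set K : ℝ := k2 D.m D.n with hKdef
  set P : ℝ → ℂ := fun t => circ c R t - (s : ℂ) with hP
  set Q : ℝ → ℂ := fun t => circ c R t - (D.a i0 : ℂ) with hQ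
  set Z : ℝ → ℂ := fun t => Y t - D.b l (circ c R t) with hZ
  set Z' : ℝ → ℂ := fun t => Y t - D.b l' (circ c R t) with hZ'
  have hPc : ContDiff ℝ 1 P := (contDiff_circ c R).sub contDiff_const
  have hQc : ContDiff ℝ 1 Q := (contDiff_circ c R).sub contDiff_const
  have hZc : ContDiff ℝ 1 Z := hY.smooth.sub (contDiff_b D c R l)
  have hZc' : ContDiff ℝ 1 Z' := hY.smooth.sub (contDiff_b D c R l')
  have hPlo : ∀ θ, R ≤ ‖P θ‖ := fun θ => K2UM.circ_lo h0 le_rfl hs θ
  have hPn : ∀ θ, P θ ≠ 0 := fun θ => by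
    rw [← norm_pos_iff]; exact lt_of_lt_of_le h0 (hPlo θ)
  have hQn : ∀ θ, Q θ ≠ 0 := fun θ => hXne hG θ i0
  have hB := bounds hG hC hlam hY l
  have hB' := bounds hG hC hlam hY l'
  have hZn : ∀ θ, Z θ ≠ 0 := fun θ => hall hY θ l
  have hZn' : ∀ θ, Z' θ ≠ 0 := fun θ => hall hY θ l'
  -- the integrand
  have hI : ∀ θ, Real.log ‖P θ / Q θ‖ * (deriv (fun t => Z t / Z' t) θ / (Z θ / Z' θ)).im -
      Real.log ‖Z θ / Z' θ‖ * (deriv (fun t => P t / Q t) θ / (P θ / Q θ)).im =
      (Real.log ‖P θ‖ - Real.log ‖Q θ‖) * ((logDeriv Z θ).im - (logDeriv Z' θ).im) -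
      (Real.log ‖Z θ‖ - Real.log ‖Z' θ‖) * ((logDeriv P θ).im - (logDeriv Q θ).im) := by
    intro θ
    have e1 : deriv (fun t => Z t / Z' t) θ / (Z θ / Z' θ) = logDeriv Z θ - logDeriv Z' θ :=
      logDeriv_div θ (hZn θ) (hZn' θ) ((hZc.differentiable (by norm_num)) θ)
        ((hZc'.differentiable (by norm_num)) θ)
    have e2 : deriv (fun t => P t / Q t) θ / (P θ / Q θ) = logDeriv P θ - logDeriv Q θ :=
      logDeriv_div θ (hPn θ) (hQn θ) ((hPc.differentiable (by norm_num)) θ)
        ((hQc.differentiable (by norm_num)) θ)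
    rw [e1, e2, norm_div, norm_div, Real.log_div (norm_ne_zero_iff.2 (hPn θ))
      (norm_ne_zero_iff.2 (hQn θ)), Real.log_div (norm_ne_zero_iff.2 (hZn θ))
      (norm_ne_zero_iff.2 (hZn' θ)), Complex.sub_im, Complex.sub_im]
  set I : ℝ → ℝ := fun θ => (Real.log ‖P θ‖ - Real.log ‖Q θ‖) *
      ((logDeriv Z θ).im - (logDeriv Z' θ).im) -
      (Real.log ‖Z θ‖ - Real.log ‖Z' θ‖) * ((logDeriv P θ).im - (logDeriv Q θ).im) with hIdef
  have hreg : regInt (fun θ => (circ c R θ - (s : ℂ)) / (circ c R θ - (D.a i0 : ℂ)))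
            (fun θ => (Y θ - D.b l (circ c R θ)) / (Y θ - D.b l' (circ c R θ))) =
      ∫ θ in (0 : ℝ)..(2 * Real.pi), I θ := by
    unfold regInt
    apply intervalIntegral.integral_congr
    intro θ _
    exact hI θ
  have cP := continuous_logDeriv hPc hPn
  have cQ := continuous_logDeriv hQc hQn
  have cZ := continuous_logDeriv hZc hZn
  have cZ' := continuous_logDeriv hZc' hZn'
  have hIc : Continuous I :=
    (((continuous_log_norm hPc hPn).sub (continuous_log_norm hQc hQn)).mul
      (cZ.sub cZ')).sub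
    (((continuous_log_norm hZc hZn).sub (continuous_log_norm hZc' hZn')).mul (cP.sub cQ))
  set xs : ℝ := xi R c s - xi R c (D.a i0) with hxs
  set ys : ℝ := YY D R L0 j c l - YY D R L0 j c l' with hys
  set MM : ℝ → ℝ := fun θ => xs * ((logDeriv Z θ).im - (logDeriv Z' θ).im) -
    ys * ((logDeriv P θ).im - (logDeriv Q θ).im) with hMM
  have hMc : Continuous MM := (continuous_const.mul (cZ.sub cZ')).sub
    (continuous_const.mul (cP.sub cQ))
  have hMint : ∫ θ in (0 : ℝ)..(2 * Real.pi), MM θ =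
      2 * Real.pi * (Phi D R L0 j c s l - Phi D R L0 j c s l' -
              Phi D R L0 j c (D.a i0) l + Phi D R L0 j c (D.a i0) l') := by
    simp only [hMM]
    have i1 : IntervalIntegrable (fun θ => xs * ((logDeriv Z θ).im - (logDeriv Z' θ).im))
        MeasureTheory.volume 0 (2 * Real.pi) :=
      (continuous_const.mul (cZ.sub cZ')).intervalIntegrable _ _
    have i2 : IntervalIntegrable (fun θ => ys * ((logDeriv P θ).im - (logDeriv Q θ).im))
        MeasureTheory.volume 0 (2 * Real.pi) :=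
      (continuous_const.mul (cP.sub cQ)).intervalIntegrable _ _
    rw [intervalIntegral.integral_sub i1 i2,
      intervalIntegral.integral_const_mul, intervalIntegral.integral_const_mul,
      intervalIntegral.integral_sub (cZ.intervalIntegrable _ _) (cZ'.intervalIntegrable _ _),
      intervalIntegral.integral_sub (cP.intervalIntegrable _ _) (cQ.intervalIntegrable _ _),
      wind hG hC hlam hY l, wind hG hC hlam hY l', wind_x h0 hs, wind_x h0 (hG.afar i0)]
    unfold Phi
    rw [hxs, hys]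
    ring
  rw [hreg, ← hMint, ← intervalIntegral.integral_sub (hIc.intervalIntegrable _ _)
    (hMc.intervalIntegrable _ _), ← Real.norm_eq_abs]
  apply intervalIntegral.norm_integral_le_of_norm_le_const
  intro θ _
  have b1 : |Real.log ‖P θ‖ - Real.log R - xi R c s| ≤ Real.log 2 := log_circ h0 hs θ
  have b2 : |Real.log ‖Q θ‖ - Real.log R - xi R c (D.a i0)| ≤ Real.log 2 :=
    log_circ h0 (hG.afar i0) θ
  have b3 : |(logDeriv Z θ).im| ≤ K := (Complex.abs_im_le_norm _).trans (hB θ).1
  have b4 : |(logDeriv Z' θ).im| ≤ K := (Complex.abs_im_le_norm _).trans (hB' θ).1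
  have b5 : |Real.log ‖Z θ‖ - Real.log R - YY D R L0 j c l| ≤ K := (hB θ).2
  have b6 : |Real.log ‖Z' θ‖ - Real.log R - YY D R L0 j c l'| ≤ K := (hB' θ).2
  have b7 : |(logDeriv P θ).im| ≤ 1 := ASUM.norm_logDeriv_circ h0 c s θ (hPlo θ)
  have b8 : |(logDeriv Q θ).im| ≤ 1 := ASUM.norm_logDeriv_circ h0 c _ θ (hG.alo i0 θ)
  have hIM : I θ - MM θ = ((Real.log ‖P θ‖ - Real.log R - xi R c s) -
        (Real.log ‖Q θ‖ - Real.log R - xi R c (D.a i0))) *
      ((logDeriv Z θ).im - (logDeriv Z' θ).im) -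
      ((Real.log ‖Z θ‖ - Real.log R - YY D R L0 j c l) -
        (Real.log ‖Z' θ‖ - Real.log R - YY D R L0 j c l')) *
        ((logDeriv P θ).im - (logDeriv Q θ).im) := by
    simp only [hIdef, hMM, hxs, hys]; ring
  rw [hIM, Real.norm_eq_abs]
  refine (abs_sub _ _).trans ?_
  rw [abs_mul, abs_mul]
  have c1 : |(Real.log ‖P θ‖ - Real.log R - xi R c s) -
      (Real.log ‖Q θ‖ - Real.log R - xi R c (D.a i0))| ≤
      Real.log 2 + Real.log 2 := (abs_sub _ _).trans (add_le_add b1 b2)
  have c2 : |(logDeriv Z θ).im - (logDeriv Z' θ).im| ≤ K + K :=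
    (abs_sub _ _).trans (add_le_add b3 b4)
  have c3 : |(Real.log ‖Z θ‖ - Real.log R - YY D R L0 j c l) -
      (Real.log ‖Z' θ‖ - Real.log R - YY D R L0 j c l')| ≤
      K + K := (abs_sub _ _).trans (add_le_add b5 b6)
  have c4 : |(logDeriv P θ).im - (logDeriv Q θ).im| ≤ 2 := by
    refine (abs_sub _ _).trans ?_
    linarith
  have d1 := abs_nonneg ((Real.log ‖P θ‖ - Real.log R - xi R c s) -
    (Real.log ‖Q θ‖ - Real.log R - xi R c (D.a i0)))
  have d2 := abs_nonneg ((logDeriv Z θ).im - (logDeriv Z' θ).im)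
  have d3 := abs_nonneg ((Real.log ‖Z θ‖ - Real.log R - YY D R L0 j c l) -
    (Real.log ‖Z' θ‖ - Real.log R - YY D R L0 j c l'))
  have d4 := abs_nonneg ((logDeriv P θ).im - (logDeriv Q θ).im)
  exact add_le_add (mul_le_mul c1 c2 d2 (d1.trans c1)) (mul_le_mul c3 c4 d4 (d3.trans c3))

end MP743d1e.W
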