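import Pool.Agent.Lib.MP_743d1e_nt.W.MODW

/-!
# LINW: linear combinations of the symbols as flows, and the lower bound for the regulator
-/

set_option autoImplicit false

namespace MP743d1e.W.LINW

open scoped BigOperators
open MP743d1e.K2Main MODW

theorem sum_subtype {α β : Type*} [Fintype α] [Fintype β] [DecidableEq α] [DecidableEq β]
    (P : α × β → Prop) [DecidablePred P]
    (f : {z // P z} → ℝ) (G : α → β → ℝ) :
    ∑ z : {z // P z}, f z * G z.1.1 z.1.2 =
      ∑ a, ∑ b, (if h : P (a, b) then f ⟨(a, b), h⟩ else 0) * G a b := by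
  have h1 := Fintype.sum_subtype_add_sum_subtype P
    (fun z : α × β => (if h : P z then f ⟨z, h⟩ else 0) * G z.1 z.2)
  have h2 : ∑ z : {z // P z}, (if h : P (z : α × β) then f ⟨z, h⟩ else 0) *
      G (z : α × β).1 (z : α × β).2 = ∑ z : {z // P z}, f z * G z.1.1 z.1.2 := by
    apply Finset.sum_congr rfl
    intro z _
    rw [dif_pos z.2]
  have h3 : ∑ z : {z // ¬ P z}, (if h : P (z : α × β) then f ⟨z, h⟩ else 0) *
      G (z : α × β).1 (z : α × β).2 = 0 := by
    apply Finset.sum_eq_zero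
    intro z _
    rw [dif_neg z.2, zero_mul]
  rw [h2, h3, add_zero, Fintype.sum_prod_type] at h1
  exact h1

variable {D : Arr}

/-- the coefficients of the symbols of the first kind -/
noncomputable def vA (v : Idx D → ℝ) (i : Fin D.m) (j : Fin D.n) : ℝ :=
  if h : (i, j).1.val ≠ 0 ∧ (i, j).2.val ≠ 0 then v (Sum.inl ⟨(i, j), h⟩) else 0

/-- the coefficients of the symbols of the second kind -/
noncomputable def vB (v : Idx D → ℝ) (j l : Fin D.n) : ℝ :=
  if h : (j, l).1 < (j, l).2 ∧ D.p (j, l).1 ≠ D.p (j, l).2 then v (Sum.inr ⟨(j, l), h⟩) else 0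

/-- the flow on the crossings of the lines of the second kind -/
noncomputable def fb (v : Idx D → ℝ) (j l : Fin D.n) : ℝ := vB v j l - vB v l j

/-- the flow on the crossings with the vertical lines -/
noncomputable def fa (v : Idx D → ℝ) (i : Fin D.m) (j : Fin D.n) : ℝ :=
  vA v i j - (if j = j0 D then ∑ j', vA v i j' else 0) -
    (if i = i0 D then (∑ i', vA v i' j + ∑ l, fb v j l -
      (if j = j0 D then ∑ i', ∑ j', vA v i' j' else 0)) else 0)

theorem fb_anti (v : Idx D → ℝ) (j l : Fin D.n) : fb v l j = -fb v j l := by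
  unfold fb; ring

theorem vB_par (v : Idx D → ℝ) (j l : Fin D.n) (h : D.p j = D.p l) : vB v j l = 0 := by
  unfold vB
  rw [dif_neg]
  rintro ⟨-, h2⟩
  exact h2 h

theorem fb_par (v : Idx D → ℝ) (j l : Fin D.n) (h : D.p j = D.p l) : fb v j l = 0 := by
  unfold fb
  rw [vB_par v j l h, vB_par v l j h.symm]; ring

theorem f1 (v : Idx D → ℝ) (k : Fin D.m) : ∑ j, fa v k j = 0 := by
  unfold fa
  simp only [Finset.sum_sub_distrib, Finset.sum_ite_eq', Finset.mem_univ, if_true]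
  have h1 : ∑ j, ∑ l, fb v j l = 0 := Wt.sum_anti _ (fb_anti v)
  have h2 : ∑ j, ∑ i', vA v i' j = ∑ i', ∑ j', vA v i' j' := Finset.sum_comm
  by_cases hk : k = i0 D
  · simp only [if_pos hk, Finset.sum_sub_distrib, Finset.sum_add_distrib, Finset.sum_ite_eq',
      Finset.mem_univ, if_true]
    rw [h1, h2]; ring
  · simp only [if_neg hk]
    simp

theorem f2 (v : Idx D → ℝ) (j : Fin D.n) : ∑ k, fa v k j + ∑ l, fb v j l = 0 := by
  unfold fa
  simp only [Finset.sum_sub_distrib, Finset.sum_ite_eq', Finset.mem_univ, if_true]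
  by_cases hj : j = j0 D
  · simp only [if_pos hj]; ring
  · simp only [if_neg hj]
    simp

theorem flow {R L0 : ℝ} (hR : 0 < R) (hs : SepT D (4 * R)) (v : Idx D → ℝ) :
    (wt D R L0 hR hs).Flow (fa v) (fb v) :=
  ⟨fb_anti v, fb_par v, f1 v, f2 v⟩

/-- the sum over the symbols as a sum over the crossings -/
theorem sum_idx (v : Idx D → ℝ) (F : ℤ → Fin D.n → ℝ) :
    ∑ i, v i * (F (ctr D i) (l1 D i) - F (ctr D i) (l2 D i) - F (D.a (i0 D)) (l1 D i) +
      F (D.a (i0 D)) (l2 D i)) =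
    ∑ i, ∑ j, fa v i j * F (D.a i) j + ∑ j, ∑ l, fb v j l * F (D.r j l) j := by
  set A0 : ℤ := D.a (i0 D) with hA0
  rw [Fintype.sum_sum_type]
  have e1 : ∑ z : {z : Fin D.m × Fin D.n // z.1.val ≠ 0 ∧ z.2.val ≠ 0},
      v (Sum.inl z) * (F (ctr D (Sum.inl z)) (l1 D (Sum.inl z)) -
        F (ctr D (Sum.inl z)) (l2 D (Sum.inl z)) - F A0 (l1 D (Sum.inl z)) +
        F A0 (l2 D (Sum.inl z))) =
      ∑ i, ∑ j, vA v i j * (F (D.a i) j - F (D.a i) (j0 D) - F A0 j + F A0 (j0 D)) :=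
    sum_subtype _ (fun z => v (Sum.inl z))
      (fun i j => F (D.a i) j - F (D.a i) (j0 D) - F A0 j + F A0 (j0 D))
  have e2 : ∑ z : {z : Fin D.n × Fin D.n // z.1 < z.2 ∧ D.p z.1 ≠ D.p z.2},
      v (Sum.inr z) * (F (ctr D (Sum.inr z)) (l1 D (Sum.inr z)) -
        F (ctr D (Sum.inr z)) (l2 D (Sum.inr z)) - F A0 (l1 D (Sum.inr z)) +
        F A0 (l2 D (Sum.inr z))) =
      ∑ j, ∑ l, vB v j l * (F (D.r j l) j - F (D.r j l) l - F A0 j + F A0 l) :=
    sum_subtype _ (fun z => v (Sum.inr z))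
      (fun j l => F (D.r j l) j - F (D.r j l) l - F A0 j + F A0 l)
  rw [e1, e2]
  -- the second sum
  have e3 : ∑ j, ∑ l, vB v j l * (F (D.r j l) j - F (D.r j l) l - F A0 j + F A0 l) =
      ∑ j, ∑ l, fb v j l * F (D.r j l) j - ∑ j, (∑ l, fb v j l) * F A0 j := by
    have g1 : ∑ j, ∑ l, vB v l j * (F (D.r j l) j - F A0 j) =
        ∑ j, ∑ l, vB v j l * (F (D.r j l) l - F A0 l) := by
      rw [Finset.sum_comm]
      apply Finset.sum_congr rfl
      intro j _
      apply Finset.sum_congr rfl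
      intro l _
      by_cases hp : D.p j = D.p l
      · rw [vB_par v j l hp]; ring
      · rw [(MODW.r_symm D hp :)]
    have g2 : ∑ j, ∑ l, fb v j l * F (D.r j l) j - ∑ j, (∑ l, fb v j l) * F A0 j =
        ∑ j, ∑ l, vB v j l * (F (D.r j l) j - F A0 j) -
          ∑ j, ∑ l, vB v l j * (F (D.r j l) j - F A0 j) := by
      rw [← Finset.sum_sub_distrib, ← Finset.sum_sub_distrib]
      apply Finset.sum_congr rfl
      intro j _
      rw [Finset.sum_mul, ← Finset.sum_sub_distrib, ← Finset.sum_sub_distrib]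
      apply Finset.sum_congr rfl
      intro l _
      unfold fb; ring
    rw [g2, g1, ← Finset.sum_sub_distrib]
    apply Finset.sum_congr rfl
    intro j _
    rw [← Finset.sum_sub_distrib]
    apply Finset.sum_congr rfl
    intro l _
    ring
  have e4 : ∑ i, ∑ j, fa v i j * F (D.a i) j =
      ∑ i, ∑ j, vA v i j * (F (D.a i) j - F (D.a i) (j0 D) - F A0 j + F A0 (j0 D)) -
        ∑ j, (∑ l, fb v j l) * F A0 j := by
    have g1 : ∀ i j, fa v i j * F (D.a i) j = vA v i j * F (D.a i) j -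
        (if j = j0 D then (∑ j', vA v i j') * F (D.a i) j else 0) -
        (if i = i0 D then (∑ i', vA v i' j + ∑ l, fb v j l -
          (if j = j0 D then ∑ i', ∑ j', vA v i' j' else 0)) * F (D.a i) j else 0) := by
      intro i j
      unfold fa
      split_ifs <;> ring
    simp only [g1, Finset.sum_sub_distrib]
    have g2 : ∑ i, ∑ j, (if j = j0 D then (∑ j', vA v i j') * F (D.a i) j else 0) =
        ∑ i, ∑ j, vA v i j * F (D.a i) (j0 D) := by
      apply Finset.sum_congr rfl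
      intro i _
      simp only [Finset.sum_ite_eq', Finset.mem_univ, if_true]
      rw [Finset.sum_mul]
    have g3 : ∑ i, ∑ j, (if i = i0 D then (∑ i', vA v i' j + ∑ l, fb v j l -
          (if j = j0 D then ∑ i', ∑ j', vA v i' j' else 0)) * F (D.a i) j else 0) =
        ∑ i, ∑ j, vA v i j * F A0 j + ∑ j, (∑ l, fb v j l) * F A0 j -
          ∑ i, ∑ j, vA v i j * F A0 (j0 D) := by
      rw [Finset.sum_comm]
      simp only [Finset.sum_ite_eq', Finset.mem_univ, if_true, sub_mul, add_mul,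
        Finset.sum_sub_distrib, Finset.sum_add_distrib, ite_mul, zero_mul]
      rw [← hA0]
      have k1 : ∑ j, (∑ i', vA v i' j) * F A0 j = ∑ i, ∑ j, vA v i j * F A0 j := by
        rw [Finset.sum_comm]
        apply Finset.sum_congr rfl
        intro j _
        rw [Finset.sum_mul]
      have k2 : (∑ i', ∑ j', vA v i' j') * F A0 (j0 D) = ∑ i, ∑ j, vA v i j * F A0 (j0 D) := by
        rw [Finset.sum_mul]
        apply Finset.sum_congr rfl
        intro i _
        rw [Finset.sum_mul]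
      rw [k1, k2]
    rw [g2, g3]
    have g4 : ∑ i, ∑ j, vA v i j * (F (D.a i) j - F (D.a i) (j0 D) - F A0 j + F A0 (j0 D)) =
        ∑ i, ∑ j, vA v i j * F (D.a i) j - ∑ i, ∑ j, vA v i j * F (D.a i) (j0 D) -
          ∑ i, ∑ j, vA v i j * F A0 j + ∑ i, ∑ j, vA v i j * F A0 (j0 D) := by
      simp only [mul_add, mul_sub, Finset.sum_add_distrib, Finset.sum_sub_distrib]
    rw [g4]
    ring
  rw [e3, e4]
  ring

theorem vA_le {v : Idx D → ℝ} {U : ℝ} (hU : ∀ i, |v i| ≤ U) (hU0 : 0 ≤ U) (i : Fin D.m)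
    (j : Fin D.n) : |vA v i j| ≤ U := by
  unfold vA
  split_ifs
  · exact hU _
  · rw [abs_zero]; exact hU0

theorem vB_le {v : Idx D → ℝ} {U : ℝ} (hU : ∀ i, |v i| ≤ U) (hU0 : 0 ≤ U) (j l : Fin D.n) :
    |vB v j l| ≤ U := by
  unfold vB
  split_ifs
  · exact hU _
  · rw [abs_zero]; exact hU0

/-- the constant -/
noncomputable def c1 (m n : ℕ) : ℝ := 2 + 3 * n + m + m * n

theorem fb_le' {v : Idx D → ℝ} {U : ℝ} (hU : ∀ i, |v i| ≤ U) (hU0 : 0 ≤ U) (j l : Fin D.n) :
    |fb v j l| ≤ 2 * U := by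
  unfold fb
  refine (abs_sub _ _).trans ?_
  have := vB_le hU hU0 j l
  have := vB_le hU hU0 l j
  linarith

theorem fb_le {v : Idx D → ℝ} {U : ℝ} (hU : ∀ i, |v i| ≤ U) (hU0 : 0 ≤ U) (j l : Fin D.n) :
    |fb v j l| ≤ c1 D.m D.n * U := by
  refine (fb_le' hU hU0 j l).trans ?_
  unfold c1
  have h1 : (0 : ℝ) ≤ 3 * D.n + D.m + D.m * D.n := by positivity
  nlinarith

theorem fa_le {v : Idx D → ℝ} {U : ℝ} (hU : ∀ i, |v i| ≤ U) (hU0 : 0 ≤ U) (i : Fin D.m)
    (j : Fin D.n) : |fa v i j| ≤ c1 D.m D.n * U := by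
  have h1 := vA_le hU hU0 i j
  have s1 : |∑ j', vA v i j'| ≤ D.n * U := by
    refine (Finset.abs_sum_le_sum_abs _ _).trans ?_
    refine (Finset.sum_le_sum fun h _ => vA_le hU hU0 i h).trans ?_
    rw [Finset.sum_const, nsmul_eq_mul, Finset.card_univ, Fintype.card_fin]
  have s2 : |∑ i', vA v i' j| ≤ D.m * U := by
    refine (Finset.abs_sum_le_sum_abs _ _).trans ?_
    refine (Finset.sum_le_sum fun h _ => vA_le hU hU0 h j).trans ?_
    rw [Finset.sum_const, nsmul_eq_mul, Finset.card_univ, Fintype.card_fin]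
  have s3 : |∑ l, fb v j l| ≤ D.n * (2 * U) := by
    refine (Finset.abs_sum_le_sum_abs _ _).trans ?_
    refine (Finset.sum_le_sum fun h _ => fb_le' hU hU0 j h).trans ?_
    rw [Finset.sum_const, nsmul_eq_mul, Finset.card_univ, Fintype.card_fin]
  have s4 : |∑ i', ∑ j', vA v i' j'| ≤ D.m * (D.n * U) := by
    refine (Finset.abs_sum_le_sum_abs _ _).trans ?_
    have : ∀ i' ∈ (Finset.univ : Finset (Fin D.m)), |∑ j', vA v i' j'| ≤ D.n * U := by
      intro i' _
      refine (Finset.abs_sum_le_sum_abs _ _).trans ?_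
      refine (Finset.sum_le_sum fun h _ => vA_le hU hU0 i' h).trans ?_
      rw [Finset.sum_const, nsmul_eq_mul, Finset.card_univ, Fintype.card_fin]
    refine (Finset.sum_le_sum this).trans ?_
    rw [Finset.sum_const, nsmul_eq_mul, Finset.card_univ, Fintype.card_fin]
  have p1 : 0 ≤ (D.n : ℝ) * U := by positivity
  have p2 : 0 ≤ (D.m : ℝ) * U := by positivity
  have p3 : 0 ≤ (D.m : ℝ) * (D.n * U) := by positivity
  unfold fa c1
  rw [abs_le] at h1 s1 s2 s3 s4 ⊢
  split_ifs <;> constructor <;>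
    nlinarith [h1.1, h1.2, s1.1, s1.2, s2.1, s2.2, s3.1, s3.2, s4.1, s4.2]

/-- the quadratic form dominates the coefficients -/
theorem sq_le (v : Idx D → ℝ) (i : Idx D) :
    v i ^ 2 ≤ ∑ k, ∑ j, fa v k j ^ 2 + (1 / 2) * ∑ j, ∑ l, fb v j l ^ 2 := by
  have hA : 0 ≤ ∑ k, ∑ j, fa v k j ^ 2 :=
    Finset.sum_nonneg fun _ _ => Finset.sum_nonneg fun _ _ => by positivity
  have hB : 0 ≤ ∑ j, ∑ l, fb v j l ^ 2 :=
    Finset.sum_nonneg fun _ _ => Finset.sum_nonneg fun _ _ => by positivity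
  rcases i with ⟨⟨i, j⟩, h⟩ | ⟨⟨j, l⟩, h⟩
  · have h1 : fa v i j = v (Sum.inl ⟨(i, j), h⟩) := by
      have hi : i ≠ i0 D := fun h' => h.1 (by rw [h']; rfl)
      have hj : j ≠ j0 D := fun h' => h.2 (by rw [h']; rfl)
      unfold fa
      rw [if_neg hi, if_neg hj, sub_zero, sub_zero]
      unfold vA
      rw [dif_pos h]
    have h2 : fa v i j ^ 2 ≤ ∑ k, ∑ j, fa v k j ^ 2 := by
      have h3 : fa v i j ^ 2 ≤ ∑ j, fa v i j ^ 2 :=
        Finset.single_le_sum (f := fun j => fa v i j ^ 2) (fun _ _ => by positivity)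
          (Finset.mem_univ j)
      have h4 : ∑ j, fa v i j ^ 2 ≤ ∑ k, ∑ j, fa v k j ^ 2 :=
        Finset.single_le_sum (f := fun k => ∑ j, fa v k j ^ 2)
          (fun _ _ => Finset.sum_nonneg fun _ _ => by positivity) (Finset.mem_univ i)
      linarith
    rw [h1] at h2
    linarith
  · have h1 : fb v j l = v (Sum.inr ⟨(j, l), h⟩) := by
      unfold fb
      have e1 : vB v j l = v (Sum.inr ⟨(j, l), h⟩) := by unfold vB; rw [dif_pos h]
      have e2 : vB v l j = 0 := by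
        unfold vB
        rw [dif_neg]
        rintro ⟨h3, -⟩
        exact absurd h3 (not_lt.2 h.1.le)
      rw [e1, e2, sub_zero]
    have hne : j ≠ l := ne_of_lt h.1
    have h2 : fb v j l ^ 2 + fb v l j ^ 2 ≤ ∑ j, ∑ l, fb v j l ^ 2 := by
      have h3 : ∀ j l, fb v j l ^ 2 ≤ ∑ l, fb v j l ^ 2 := fun j l =>
        Finset.single_le_sum (f := fun l => fb v j l ^ 2) (fun _ _ => by positivity)
          (Finset.mem_univ l)
      have h4 : ∑ l', fb v j l' ^ 2 + ∑ l', fb v l l' ^ 2 ≤ ∑ j, ∑ l, fb v j l ^ 2 := by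
        have h0 := Finset.add_sum_erase Finset.univ (fun k => ∑ l, fb v k l ^ 2)
          (Finset.mem_univ j)
        rw [← h0]
        have h5 : ∑ l', fb v l l' ^ 2 ≤ ∑ k ∈ Finset.univ.erase j, ∑ l, fb v k l ^ 2 :=
          Finset.single_le_sum (f := fun k => ∑ l, fb v k l ^ 2)
            (fun _ _ => Finset.sum_nonneg fun _ _ => by positivity)
            (Finset.mem_erase.2 ⟨hne.symm, Finset.mem_univ l⟩)
        linarith
      have := h3 j l
      have := h3 l j
      linarith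
    rw [fb_anti v j l, h1] at h2
    nlinarith

/-- the model of the pairing of the `i`-th symbol with the `k`-th loop -/
noncomputable def mod (D : Arr) (R L0 : ℝ) (i k : Idx D) : ℝ :=
  Phi D R L0 (l1 D k) (ctr D k) (ctr D i) (l1 D i) -
    Phi D R L0 (l1 D k) (ctr D k) (ctr D i) (l2 D i) -
    Phi D R L0 (l1 D k) (ctr D k) (D.a (i0 D)) (l1 D i) +
    Phi D R L0 (l1 D k) (ctr D k) (D.a (i0 D)) (l2 D i)

/-- first constant -/
noncomputable def K1 (m n : ℕ) : ℝ :=
  ((m : ℝ) * n + n ^ 2) * c1 m n * ((m : ℝ) * n + m + n + 1)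

/-- second constant -/
noncomputable def K2c (m n : ℕ) (C1 : ℝ) : ℝ := K1 m n * (((m : ℝ) * n + n ^ 2) * C1)

theorem K1_pos {m n : ℕ} (hn : 2 ≤ n) : 0 < K1 m n := by
  have : (0 : ℝ) < n := by exact_mod_cast (by omega : 0 < n)
  unfold K1 c1
  positivity

/-- The lower bound for the regulator. -/
theorem lower {R L0 : ℝ} (hR : 0 < R) (hs : SepT D (4 * R)) {C1 : ℝ} (hC1 : 0 ≤ C1)
    (N : Idx D → Idx D → ℝ) (hN : ∀ i k, |N i k - mod D R L0 i k| ≤ C1) (v : Idx D → ℝ) (e0 : ℝ)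
    (he : ∀ k, |∑ i, v i * N i k| ≤ e0) (i : Idx D) :
    (L0 - K2c D.m D.n C1) * |v i| ≤ K1 D.m D.n * e0 := by
  have he0 : 0 ≤ e0 := (abs_nonneg _).trans (he i)
  have hn2 : (2 : ℝ) ≤ D.n := by exact_mod_cast D.hn
  -- the largest coefficient
  have : Nonempty (Idx D) := ⟨i⟩
  obtain ⟨i1, -, hmax⟩ := Finset.exists_max_image Finset.univ (fun i => |v i|)
    Finset.univ_nonempty
  set U : ℝ := |v i1| with hU
  have hU0 : 0 ≤ U := abs_nonneg _
  have hvU : ∀ i, |v i| ≤ U := fun i => hmax i (Finset.mem_univ i)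
  set V : ℝ := c1 D.m D.n * U with hV
  have hc1 : 0 < c1 D.m D.n := by unfold c1; positivity
  have hV0 : 0 ≤ V := by positivity
  have hf := flow (L0 := L0) hR hs v
  set W := wt D R L0 hR hs with hW
  -- the values of the model
  have hcard : (Fintype.card (Idx D) : ℝ) ≤ (D.m : ℝ) * D.n + D.n ^ 2 := by
    rw [card_idx]
    have h1 : D.g ≤ D.m * D.n + D.n * D.n := by
      unfold Arr.g Arr.crossings
      apply Nat.add_le_add
      · exact Nat.mul_le_mul (Nat.sub_le _ _) (Nat.sub_le _ _)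
      · refine (Finset.card_filter_le _ _).trans ?_
        rw [Finset.card_univ, Fintype.card_prod, Fintype.card_fin]
    rw [pow_two]
    exact_mod_cast h1
  set e : ℝ := e0 + ((D.m : ℝ) * D.n + D.n ^ 2) * C1 * U with hedef
  have he' : 0 ≤ e := by positivity
  have hval : ∀ k : Idx D, |val D R L0 (fa v) (fb v) (l1 D k) (ctr D k)| ≤ e := by
    intro k
    have h1 : ∑ i, v i * mod D R L0 i k = val D R L0 (fa v) (fb v) (l1 D k) (ctr D k) := by
      unfold val mod
      exact sum_idx v (Phi D R L0 (l1 D k) (ctr D k))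
    rw [← h1]
    have h2 : ∑ i, v i * mod D R L0 i k = ∑ i, v i * N i k - ∑ i, v i * (N i k - mod D R L0 i k) := by
      rw [← Finset.sum_sub_distrib]
      apply Finset.sum_congr rfl
      intro i _
      ring
    rw [h2]
    refine (abs_sub _ _).trans ?_
    have h3 : |∑ i, v i * (N i k - mod D R L0 i k)| ≤ ((D.m : ℝ) * D.n + D.n ^ 2) * C1 * U := by
      refine (Finset.abs_sum_le_sum_abs _ _).trans ?_
      have h4 : ∀ i ∈ (Finset.univ : Finset (Idx D)), |v i * (N i k - mod D R L0 i k)| ≤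
          U * C1 := by
        intro i _
        rw [abs_mul]
        exact mul_le_mul (hvU i) (hN i k) (abs_nonneg _) hU0
      refine (Finset.sum_le_sum h4).trans ?_
      rw [Finset.sum_const, nsmul_eq_mul, Finset.card_univ]
      calc (Fintype.card (Idx D) : ℝ) * (U * C1) ≤ ((D.m : ℝ) * D.n + D.n ^ 2) * (U * C1) := by
            gcongr
        _ = _ := by ring
    have := he k
    linarith
  have hVa : ∀ k j, |fa v k j| ≤ V := fa_le hvU hU0
  have hVb : ∀ j l, |fb v j l| ≤ V := fb_le hvU hU0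
  have hA : ∀ k j, k ≠ i0 D → j ≠ j0 D → |W.yA (fa v) (fb v) k j| ≤ e := by
    intro k j hk hj
    have hk' : k.val ≠ 0 := fun h => hk (Fin.ext h)
    have hj' : j.val ≠ 0 := fun h => hj (Fin.ext h)
    have h1 := hval (Sum.inl ⟨(k, j), ⟨hk', hj'⟩⟩)
    have h2 : val D R L0 (fa v) (fb v) j (D.a k) = W.yA (fa v) (fb v) k j :=
      valA hR hs hf k j
    have h3 : |val D R L0 (fa v) (fb v) j (D.a k)| ≤ e := h1
    rwa [h2] at h3
  have hB : ∀ j l, j < l → W.p j ≠ W.p l → |W.yB (fa v) (fb v) j l| ≤ e := by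
    intro j l hjl hp
    have h1 := hval (Sum.inr ⟨(j, l), ⟨hjl, hp⟩⟩)
    have h3 : |val D R L0 (fa v) (fb v) j (D.r j l)| ≤ e := h1
    have h2 : val D R L0 (fa v) (fb v) j (D.r j l) = W.yB (fa v) (fb v) j l :=
      valB hR hs hf hp
    rwa [h2] at h3
  have hmain := Wt.flow_le hf (i0 D) (j0 D) hVa hVb hA hB he'
  have hL0 : W.L0 = L0 := rfl
  rw [hL0] at hmain
  -- conclusion
  by_cases hneg : L0 - K2c D.m D.n C1 ≤ 0
  · have h1 : (L0 - K2c D.m D.n C1) * |v i| ≤ 0 :=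
      mul_nonpos_of_nonpos_of_nonneg hneg (abs_nonneg _)
    have h2 : 0 ≤ K1 D.m D.n * e0 := mul_nonneg (K1_pos D.hn).le he0
    linarith
  push Not at hneg
  have hK2 : 0 ≤ K2c D.m D.n C1 := by
    have := (K1_pos (m := D.m) D.hn).le
    unfold K2c
    positivity
  have hL0pos : 0 ≤ L0 := by linarith
  have hS := sq_le v i1
  have hS' : L0 * U ^ 2 ≤ L0 * (∑ k, ∑ j, fa v k j ^ 2 + (1 / 2) * ∑ j, ∑ l, fb v j l ^ 2) := by
    apply mul_le_mul_of_nonneg_left _ hL0pos
    rw [hU, sq_abs]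
    exact hS
  have h5 : L0 * U ^ 2 ≤ (K1 D.m D.n * e0 + K2c D.m D.n C1 * U) * U := by
    refine (hS'.trans hmain).trans (le_of_eq ?_)
    rw [hedef, hV]
    unfold K2c K1
    ring
  have h6 : (L0 - K2c D.m D.n C1) * U ≤ K1 D.m D.n * e0 := by
    rcases hU0.eq_or_lt with h7 | h7
    · rw [← h7, mul_zero]
      exact mul_nonneg (K1_pos D.hn).le he0
    · have h8 : L0 * U ≤ K1 D.m D.n * e0 + K2c D.m D.n C1 * U := by
        have h9 : (L0 * U) * U ≤ (K1 D.m D.n * e0 + K2c D.m D.n C1 * U) * U := by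
          calc (L0 * U) * U = L0 * U ^ 2 := by ring
            _ ≤ _ := h5
        exact le_of_mul_le_mul_right h9 h7
      linarith
  calc (L0 - K2c D.m D.n C1) * |v i| ≤ (L0 - K2c D.m D.n C1) * U :=
        mul_le_mul_of_nonneg_left (hvU i) hneg.le
    _ ≤ _ := h6

end MP743d1e.W.LINW
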