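import Pool.Agent.Lib.MP_743d1e_nt.U.Defs
import Pool.Agent.Lib.MP_743d1e_nt.U.ASU

/-!
# Uniform estimates for all arrangements (block W): definitions

`GD D j c R`: all lines are far from the circle of radius `R` around `c`, apart from those
which meet the `j`-th line above `c`.
`Phi`: the model of the regulator pairing with a circle.
-/

set_option autoImplicit false

namespace MP743d1e.W

open scoped BigOperators
open MP743d1e.U

/-- the circle of radius `R` around `c` is far from the lines that do not meet the `j`-th line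
above `c` -/
structure GD (D : Arr) (j : Fin D.n) (c : ℤ) (R : ℝ) : Prop where
  pos : 0 < R
  afar : ∀ i, D.a i ≠ c → 4 * R ≤ |(c : ℝ) - D.a i|
  rfar : ∀ l, D.p j ≠ D.p l → D.r j l ≠ c → 4 * R ≤ |(c : ℝ) - D.r j l|
  qfar : ∀ l, l ≠ j → D.p j = D.p l → 4 * R ≤ |(D.q j : ℝ) - D.q l|

/-- normalised logarithm of the distance of two integers (zero if they are equal) -/
noncomputable def xi (R : ℝ) (c s : ℤ) : ℝ := Real.log (|(c : ℝ) - s| / R)

/-- logarithm of the difference of the slopes of two lines (zero if they are parallel) -/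
noncomputable def lw (D : Arr) (j l : Fin D.n) : ℝ :=
  if D.p j = D.p l then 0 else Real.log |(D.p j : ℝ) - D.p l|

section

variable (D : Arr) (R : ℝ)

/-- normalised logarithm of the distance of two parallel lines -/
noncomputable def nu (j l : Fin D.n) : ℝ :=
  if D.p j = D.p l then Real.log (|(D.q j : ℝ) - D.q l| / R) else 0

/-- normalised logarithm of the distance of `c` to the crossing of two lines -/
noncomputable def zt (j l : Fin D.n) (c : ℤ) : ℝ :=
  if D.p j = D.p l then 0 else xi R c (D.r j l)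

/-- normalised logarithm of the distance of two lines above `c` -/
noncomputable def bt (j l : Fin D.n) (c : ℤ) : ℝ := nu D R j l + zt D R j l c + lw D j l

/-- the indicator of `s = c` -/
noncomputable def dl (c s : ℤ) : ℝ := if s = c then 1 else 0

/-- the indicator of: the lines `j` and `l` meet above `c` -/
noncomputable def ind (j l : Fin D.n) (c : ℤ) : ℝ := if D.p j ≠ D.p l ∧ D.r j l = c then 1 else 0

/-- the number of lines which meet the `j`-th line above `c` -/
noncomputable def wj (j : Fin D.n) (c : ℤ) : ℝ := ∑ i, dl c (D.a i) + ∑ l, ind D j l c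

/-- the winding number of `y - b l` on the `j`-th sheet -/
noncomputable def om (j : Fin D.n) (c : ℤ) (l : Fin D.n) : ℝ :=
  ind D j l c - if l = j then wj D j c else 0

/-- minus the normalised logarithm of `y - b j` on the `j`-th sheet -/
noncomputable def Lam (L0 : ℝ) (j : Fin D.n) (c : ℤ) : ℝ :=
  L0 + ∑ i, xi R c (D.a i) + ∑ l, bt D R j l c

/-- the normalised logarithm of `y - b l` on the `j`-th sheet -/
noncomputable def YY (L0 : ℝ) (j : Fin D.n) (c : ℤ) (l : Fin D.n) : ℝ :=
  bt D R j l c - if l = j then Lam D R L0 j c else 0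

/-- the model of the pairing of `{x - s, y - b l}` with the circle around `c` on the `j`-th
sheet, divided by `2 * π` -/
noncomputable def Phi (L0 : ℝ) (j : Fin D.n) (c : ℤ) (s : ℤ) (l : Fin D.n) : ℝ :=
  xi R c s * om D j c l - YY D R L0 j c l * dl c s

end

/-- SHW. Uniform existence of the branches. -/
def SpecSHW : Prop :=
  ∀ (m n : ℕ), ∃ C L : ℝ, 0 < L ∧ 0 < C ∧ ∀ D : Arr, D.m = m → D.n = n →
    ∀ (j : Fin D.n) (c : ℤ) (R : ℝ), GD D j c R → ∀ lam : ℤ, L ≤ lamR D lam R →
      ∃ Y : ℝ → ℂ, ShU D lam j c R C Y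

/-- ASW. Uniform asymptotics of the regulator integrals. -/
def SpecASW : Prop :=
  ∀ (m n : ℕ) (C : ℝ), 0 < C → ∃ C' L : ℝ, 0 < L ∧ 0 ≤ C' ∧ ∀ D : Arr, D.m = m → D.n = n →
    ∀ (j : Fin D.n) (c : ℤ) (R : ℝ), GD D j c R → ∀ (s : ℤ) (i0 : Fin D.m) (l l' : Fin D.n),
      (s ≠ c → 4 * R ≤ |(c : ℝ) - s|) →
      ∀ lam : ℤ, L ≤ lamR D lam R → ∀ Y : ℝ → ℂ, ShU D lam j c R C Y →
        |regInt (fun θ => (circ c R θ - (s : ℂ)) / (circ c R θ - (D.a i0 : ℂ)))
            (fun θ => (Y θ - D.b l (circ c R θ)) / (Y θ - D.b l' (circ c R θ)))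
          - 2 * Real.pi * (Phi D R (Real.log (lamR D lam R)) j c s l -
              Phi D R (Real.log (lamR D lam R)) j c s l' -
              Phi D R (Real.log (lamR D lam R)) j c (D.a i0) l +
              Phi D R (Real.log (lamR D lam R)) j c (D.a i0) l')| ≤ C'

namespace GD

variable {D : Arr} {j : Fin D.n} {c : ℤ} {R : ℝ}

theorem alo (h : GD D j c R) (i : Fin D.m) (θ : ℝ) : R ≤ ‖circ c R θ - (D.a i : ℂ)‖ :=
  K2UM.circ_lo h.pos le_rfl (h.afar i) θ

theorem sub_b (D : Arr) (j l : Fin D.n) (x : ℂ) (h : D.p j ≠ D.p l) :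
    D.b j x - D.b l x = ((D.p j - D.p l : ℤ) : ℂ) * (x - (D.r j l : ℂ)) := by
  have h4 := D.cross j l h
  have h5 : ((D.p j : ℤ) : ℂ) * (D.r j l : ℂ) + (D.q j : ℂ) =
      (D.p l : ℂ) * (D.r j l : ℂ) + (D.q l : ℂ) := by exact_mod_cast h4
  simp only [Arr.b]; push_cast
  linear_combination h5

theorem sub_b_par (D : Arr) (j l : Fin D.n) (x : ℂ) (h : D.p j = D.p l) :
    D.b j x - D.b l x = ((D.q j - D.q l : ℤ) : ℂ) := by
  simp only [Arr.b, h]; push_cast; ring

theorem blo (h : GD D j c R) (l : Fin D.n) (hl : l ≠ j) (θ : ℝ) :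
    R ≤ ‖D.b j (circ c R θ) - D.b l (circ c R θ)‖ := by
  by_cases hp : D.p j = D.p l
  · rw [sub_b_par D j l _ hp, Complex.norm_intCast]
    push_cast
    have h4 := h.qfar l hl hp
    have := h.pos
    linarith
  · rw [sub_b D j l _ hp, norm_mul]
    have h6 := Circ.norm_int_ge_one (z := D.p j - D.p l) (by omega)
    have h7 := K2UM.circ_lo h.pos le_rfl (h.rfar l hp) θ
    nlinarith [norm_nonneg (circ c R θ - (D.r j l : ℂ))]

theorem bder (h : GD D j c R) (l : Fin D.n) (θ : ℝ) :
    ‖(D.p j : ℂ) * (Complex.I * (circ c R θ - (c : ℂ))) -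
      (D.p l : ℂ) * (Complex.I * (circ c R θ - (c : ℂ)))‖ ≤
      ‖D.b j (circ c R θ) - D.b l (circ c R θ)‖ := by
  by_cases hp : D.p j = D.p l
  · rw [hp, sub_self, norm_zero]
    exact norm_nonneg _
  · rw [sub_b D j l _ hp, norm_mul]
    have h1 : (D.p j : ℂ) * (Complex.I * (circ c R θ - (c : ℂ))) -
      (D.p l : ℂ) * (Complex.I * (circ c R θ - (c : ℂ))) =
      ((D.p j - D.p l : ℤ) : ℂ) * (Complex.I * (circ c R θ - (c : ℂ))) := by push_cast; ring
    have h7 := K2UM.circ_lo h.pos le_rfl (h.rfar l hp) θ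
    rw [h1, norm_mul, Circ.norm_deriv_circ h.pos]
    gcongr

end GD

end MP743d1e.W
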