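import Mathlib

/-!
# NETW: the positive form attached to a configuration of lines, for arbitrary slopes

The variables `a k j` and `b j l` are the values of a flow on the edges of the dual graph: the
vertices are the lines `x = a k` (indexed by `k`) and `y = b j` (indexed by `j`), the edges are
the crossings.
-/

set_option autoImplicit false

namespace MP743d1e.W

open scoped BigOperators

/-- Weights: `x k i`, `v j l` are logarithms of distances of parallel lines, `d j l k` and
`E j l h` those of the sizes of triangles, `w` those of the differences of the slopes `p`. -/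
structure Wt (m n : ℕ) where
  p : Fin n → ℤ
  L0 : ℝ
  x : Fin m → Fin m → ℝ
  d : Fin n → Fin n → Fin m → ℝ
  v : Fin n → Fin n → ℝ
  w : Fin n → Fin n → ℝ
  E : Fin n → Fin n → Fin n → ℝ
  x_symm : ∀ k i, x k i = x i k
  x_nonneg : ∀ k i, 0 ≤ x k i
  d_symm : ∀ j l k, d j l k = d l j k
  d_ge : ∀ j l k, w j l ≤ d j l k
  d_par : ∀ j l k, p j = p l → d j l k = v j l
  v_nonneg : ∀ j l, p j = p l → 0 ≤ v j l
  w_symm : ∀ j l, w j l = w l j
  w_nonneg : ∀ j l, 0 ≤ w j l
  w_par : ∀ j l, p j = p l → w j l = 0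
  w_congr : ∀ j l h, p j = p l → w j h = w l h
  E_sw : ∀ j l h, E j l h = E j h l
  E_cyc : ∀ j l h, E j l h = E l h j
  E_ge : ∀ j l h, p j ≠ p l → p j ≠ p h → p l ≠ p h → w j l + w j h ≤ E j l h
  E_par : ∀ j l h, p j = p l → j ≠ l → p j ≠ p h → E j l h = v j l + w j h

namespace Wt

variable {m n : ℕ} (W : Wt m n)

/-- a flow -/
structure Flow (a : Fin m → Fin n → ℝ) (b : Fin n → Fin n → ℝ) : Prop where
  anti : ∀ j l, b l j = -b j l
  par : ∀ j l, W.p j = W.p l → b j l = 0
  f1 : ∀ k, ∑ j, a k j = 0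
  f2 : ∀ j, ∑ k, a k j + ∑ l, b j l = 0

/-- the potential -/
noncomputable def G (b : Fin n → Fin n → ℝ) (j : Fin n) : ℝ := ∑ l, W.w j l * b j l

/-- the value at the crossing of a vertical line with the line `j` -/
noncomputable def yA (a : Fin m → Fin n → ℝ) (b : Fin n → Fin n → ℝ) (k : Fin m) (j : Fin n) : ℝ :=
  W.L0 * a k j + ∑ i, W.x k i * (a k j - a i j) +
    ∑ l, W.d j l k * (a k j - a k l - b j l) + W.G b j

/-- the value at the crossing of the lines `j` and `l` -/
noncomputable def yB (a : Fin m → Fin n → ℝ) (b : Fin n → Fin n → ℝ) (j l : Fin n) : ℝ :=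
  W.L0 * b j l + ∑ i, W.d j l i * (b j l + a i l - a i j) +
    ∑ h, W.E j l h * (b j l + b l h + b h j) - ((m : ℝ) + n) * (W.w j l * b j l) +
    W.G b j - W.G b l

/-- symmetrisation of a double sum -/
theorem sum_symm2 {ι : Type*} [Fintype ι] (F : ι → ι → ℝ) :
    ∑ j, ∑ l, F j l = ∑ j, ∑ l, (1 / 2) * (F j l + F l j) := by
  have h1 : ∑ j, ∑ l, F l j = ∑ j, ∑ l, F j l := Finset.sum_comm
  simp only [← Finset.mul_sum, Finset.sum_add_distrib]
  rw [h1]
  ring

theorem sum_symm3 {ι : Type*} [Fintype ι] (F : ι → ι → ι → ℝ) :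
    ∑ j, ∑ l, ∑ h, F j l h = ∑ j, ∑ l, ∑ h, (1 / 3) * (F j l h + F l h j + F h j l) := by
  have h1 : ∑ j, ∑ l, ∑ h, F l h j = ∑ j, ∑ l, ∑ h, F j l h := by
    rw [Finset.sum_comm]
    apply Finset.sum_congr rfl
    intro l _
    rw [Finset.sum_comm]
  have h2 : ∑ j, ∑ l, ∑ h, F h j l = ∑ j, ∑ l, ∑ h, F j l h := by
    have h3 : ∀ j, ∑ l, ∑ h, F h j l = ∑ h, ∑ l, F h j l := fun j => Finset.sum_comm
    simp only [h3]
    rw [Finset.sum_comm]
  simp only [← Finset.mul_sum, Finset.sum_add_distrib]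
  rw [h1, h2]
  ring

theorem sum_anti {ι : Type*} [Fintype ι] (F : ι → ι → ℝ) (h : ∀ j l, F l j = -F j l) :
    ∑ j, ∑ l, F j l = 0 := by
  rw [sum_symm2]
  apply Finset.sum_eq_zero
  intro j _
  apply Finset.sum_eq_zero
  intro l _
  rw [h j l]; ring

/-- positivity of the kernel `[p j = p h]` -/
theorem psd {ι : Type*} [Fintype ι] (p : ι → ℤ) (f : ι → ℝ) :
    0 ≤ ∑ j, ∑ h, (if p j = p h then f j * f h else 0) := by
  classical
  have h1 : ∀ j, ∑ h, (if p j = p h then f j * f h else 0) =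
      f j * ∑ h, (if p h = p j then f h else 0) := by
    intro j
    rw [Finset.mul_sum]
    apply Finset.sum_congr rfl
    intro h _
    by_cases hp : p j = p h
    · rw [if_pos hp, if_pos hp.symm]
    · rw [if_neg hp, if_neg (Ne.symm hp), mul_zero]
  simp only [h1]
  set g : ℤ → ℝ := fun v => ∑ h, (if p h = v then f h else 0) with hg
  have h2 : ∑ v ∈ Finset.univ.image p, ∑ j ∈ Finset.univ.filter (fun j => p j = v),
      f j * g (p j) = ∑ j, f j * g (p j) :=
    Finset.sum_fiberwise_of_maps_to (fun j _ => Finset.mem_image_of_mem p (Finset.mem_univ j)) _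
  have h3 : ∀ v, ∑ j ∈ Finset.univ.filter (fun j => p j = v), f j * g (p j) = g v * g v := by
    intro v
    have h4 : ∑ j ∈ Finset.univ.filter (fun j => p j = v), f j * g (p j) =
        ∑ j ∈ Finset.univ.filter (fun j => p j = v), f j * g v := by
      apply Finset.sum_congr rfl
      intro j hj
      rw [(Finset.mem_filter.1 hj).2]
    rw [h4, ← Finset.sum_mul, Finset.sum_filter]
  show 0 ≤ ∑ j, f j * g (p j)
  rw [← h2]
  apply Finset.sum_nonneg
  intro v _
  rw [h3]
  exact mul_self_nonneg _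

/-- the form of a triangle -/
theorem tri {E w1 w2 w3 z1 z2 z3 : ℝ} (h1 : 0 ≤ w1) (h2 : 0 ≤ w2) (h3 : 0 ≤ w3)
    (e12 : w1 + w2 ≤ E) (e23 : w2 + w3 ≤ E) (e13 : w1 + w3 ≤ E) :
    0 ≤ E * (z1 + z2 + z3) ^ 2 - 2 * (z1 + z2 + z3) * (w1 * z1 + w2 * z2 + w3 * z3) +
      (w1 * z1 ^ 2 + w2 * z2 ^ 2 + w3 * z3 ^ 2) := by
  -- the case where `w3` is the smallest
  have key : ∀ w1 w2 w3 z1 z2 z3 : ℝ, 0 ≤ w3 → w3 ≤ w1 → w3 ≤ w2 → w1 + w2 ≤ E →
      0 ≤ E * (z1 + z2 + z3) ^ 2 - 2 * (z1 + z2 + z3) * (w1 * z1 + w2 * z2 + w3 * z3) +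
      (w1 * z1 ^ 2 + w2 * z2 ^ 2 + w3 * z3 ^ 2) := by
    intro w1 w2 w3 z1 z2 z3 h3 h31 h32 hE
    have e : E * (z1 + z2 + z3) ^ 2 - 2 * (z1 + z2 + z3) * (w1 * z1 + w2 * z2 + w3 * z3) +
      (w1 * z1 ^ 2 + w2 * z2 ^ 2 + w3 * z3 ^ 2) =
      (E - (w1 + w2)) * (z1 + z2 + z3) ^ 2 + (w1 - w3) * (z2 + z3) ^ 2 +
      (w2 - w3) * (z1 + z3) ^ 2 + w3 * (z1 ^ 2 + z2 ^ 2 + z3 ^ 2) := by ring
    rw [e]
    have a1 : 0 ≤ E - (w1 + w2) := by linarith
    have a2 : 0 ≤ w1 - w3 := by linarith
    have a3 : 0 ≤ w2 - w3 := by linarith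
    positivity
  rcases le_total w1 w2 with h12 | h12
  · rcases le_total w1 w3 with h13 | h13
    · have := key w2 w3 w1 z2 z3 z1 h1 h12 h13 e23
      refine this.trans (le_of_eq ?_)
      ring
    · have := key w1 w2 w3 z1 z2 z3 h3 h13 (h13.trans h12) e12
      exact this
  · rcases le_total w2 w3 with h23 | h23
    · have := key w1 w3 w2 z1 z3 z2 h2 h12 h23 e13
      refine this.trans (le_of_eq ?_)
      ring
    · exact key w1 w2 w3 z1 z2 z3 h3 (h23.trans h12) h23 e12

variable {W} {a : Fin m → Fin n → ℝ} {b : Fin n → Fin n → ℝ}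

/-- the quadratic form -/
theorem form_eq (hf : W.Flow a b) :
    ∑ k, ∑ j, a k j * W.yA a b k j + (1 / 2) * ∑ j, ∑ l, b j l * W.yB a b j l =
      W.L0 * (∑ k, ∑ j, a k j ^ 2 + (1 / 2) * ∑ j, ∑ l, b j l ^ 2) +
      ∑ j, ∑ k, ∑ i, (1 / 2) * (W.x k i * (a k j - a i j) ^ 2) +
      (∑ j, ∑ l, ((1 / 2) * ∑ k, W.d j l k * (a k j - a k l - b j l) ^ 2 -
        (1 / 2) * (((m : ℝ) + n) * (W.w j l * b j l ^ 2))) +
      ∑ j, ∑ l, ∑ h, (1 / 6) * (W.E j l h * (b j l + b l h + b h j) ^ 2)) := by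
  -- the parts
  have hx : ∑ k, ∑ j, a k j * ∑ i, W.x k i * (a k j - a i j) =
      ∑ j, ∑ k, ∑ i, (1 / 2) * (W.x k i * (a k j - a i j) ^ 2) := by
    rw [Finset.sum_comm]
    apply Finset.sum_congr rfl
    intro j _
    simp only [Finset.mul_sum]
    rw [sum_symm2]
    apply Finset.sum_congr rfl
    intro k _
    apply Finset.sum_congr rfl
    intro i _
    rw [W.x_symm i k]
    ring
  have hd : ∑ k, ∑ j, a k j * ∑ l, W.d j l k * (a k j - a k l - b j l) +
      (1 / 2) * ∑ j, ∑ l, b j l * ∑ i, W.d j l i * (b j l + a i l - a i j) =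
      ∑ j, ∑ l, (1 / 2) * ∑ k, W.d j l k * (a k j - a k l - b j l) ^ 2 := by
    have h1 : (1 / 2) * ∑ j, ∑ l, b j l * ∑ i, W.d j l i * (b j l + a i l - a i j) =
        ∑ k, ∑ j, ∑ l, (1 / 2) * (b j l * (W.d j l k * (b j l + a k l - a k j))) := by
      simp only [Finset.mul_sum]
      have h2 : ∀ j, ∑ l, ∑ i, (1 / 2) * (b j l * (W.d j l i * (b j l + a i l - a i j))) =
          ∑ i, ∑ l, (1 / 2) * (b j l * (W.d j l i * (b j l + a i l - a i j))) := fun j =>
        Finset.sum_comm
      simp only [h2]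
      rw [Finset.sum_comm]
    have h3 : ∑ j, ∑ l, (1 / 2) * ∑ k, W.d j l k * (a k j - a k l - b j l) ^ 2 =
        ∑ k, ∑ j, ∑ l, (1 / 2) * (W.d j l k * (a k j - a k l - b j l) ^ 2) := by
      simp only [Finset.mul_sum]
      have h2 : ∀ j, ∑ l, ∑ k, (1 / 2) * (W.d j l k * (a k j - a k l - b j l) ^ 2) =
          ∑ k, ∑ l, (1 / 2) * (W.d j l k * (a k j - a k l - b j l) ^ 2) := fun j =>
        Finset.sum_comm
      simp only [h2]
      rw [Finset.sum_comm]
    rw [h1, h3, ← Finset.sum_add_distrib]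
    apply Finset.sum_congr rfl
    intro k _
    simp only [Finset.mul_sum, ← Finset.sum_add_distrib]
    rw [sum_symm2]
    apply Finset.sum_congr rfl
    intro j _
    apply Finset.sum_congr rfl
    intro l _
    rw [W.d_symm l j, hf.anti j l]
    ring
  have hE : (1 / 2) * ∑ j, ∑ l, b j l * ∑ h, W.E j l h * (b j l + b l h + b h j) =
      ∑ j, ∑ l, ∑ h, (1 / 6) * (W.E j l h * (b j l + b l h + b h j) ^ 2) := by
    simp only [Finset.mul_sum]
    rw [sum_symm3]
    apply Finset.sum_congr rfl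
    intro j _
    apply Finset.sum_congr rfl
    intro l _
    apply Finset.sum_congr rfl
    intro h _
    rw [← W.E_cyc j l h, W.E_cyc h j l]
    ring
  have hL : ∑ k, ∑ j, a k j * (W.L0 * a k j) + (1 / 2) * ∑ j, ∑ l, b j l * (W.L0 * b j l) =
      W.L0 * (∑ k, ∑ j, a k j ^ 2 + (1 / 2) * ∑ j, ∑ l, b j l ^ 2) := by
    have e1 : ∑ k, ∑ j, a k j * (W.L0 * a k j) = W.L0 * ∑ k, ∑ j, a k j ^ 2 := by
      simp only [Finset.mul_sum]
      exact Finset.sum_congr rfl fun k _ => Finset.sum_congr rfl fun j _ => by ring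
    have e2 : ∑ j, ∑ l, b j l * (W.L0 * b j l) = W.L0 * ∑ j, ∑ l, b j l ^ 2 := by
      simp only [Finset.mul_sum]
      exact Finset.sum_congr rfl fun k _ => Finset.sum_congr rfl fun j _ => by ring
    rw [e1, e2]; ring
  have hG : ∑ k, ∑ j, a k j * W.G b j + (1 / 2) * (∑ j, ∑ l, b j l * W.G b j -
      ∑ j, ∑ l, b j l * W.G b l) = 0 := by
    have e1 : ∑ k, ∑ j, a k j * W.G b j = ∑ j, (∑ k, a k j) * W.G b j := by
      rw [Finset.sum_comm]
      exact Finset.sum_congr rfl fun j _ => by rw [Finset.sum_mul]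
    have e2 : ∑ j, ∑ l, b j l * W.G b j = ∑ j, (∑ l, b j l) * W.G b j :=
      Finset.sum_congr rfl fun j _ => by rw [Finset.sum_mul]
    have e3 : ∑ j, ∑ l, b j l * W.G b l = -∑ j, (∑ l, b j l) * W.G b j := by
      rw [Finset.sum_comm, ← Finset.sum_neg_distrib]
      apply Finset.sum_congr rfl
      intro l _
      rw [Finset.sum_mul, ← Finset.sum_neg_distrib]
      apply Finset.sum_congr rfl
      intro j _
      rw [hf.anti l j]; ring
    rw [e1, e2, e3]
    have e4 : ∑ j, (∑ k, a k j) * W.G b j + ∑ j, (∑ l, b j l) * W.G b j = 0 := by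
      rw [← Finset.sum_add_distrib]
      apply Finset.sum_eq_zero
      intro j _
      rw [← add_mul, hf.f2 j, zero_mul]
    linarith
  have hw : (1 / 2) * ∑ j, ∑ l, b j l * (((m : ℝ) + n) * (W.w j l * b j l)) =
      ∑ j, ∑ l, (1 / 2) * (((m : ℝ) + n) * (W.w j l * b j l ^ 2)) := by
    simp only [Finset.mul_sum]
    exact Finset.sum_congr rfl fun k _ => Finset.sum_congr rfl fun j _ => by ring
  have hsplit : ∑ j, ∑ l, ((1 / 2) * ∑ k, W.d j l k * (a k j - a k l - b j l) ^ 2 -
        (1 / 2) * (((m : ℝ) + n) * (W.w j l * b j l ^ 2))) =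
      ∑ j, ∑ l, (1 / 2) * ∑ k, W.d j l k * (a k j - a k l - b j l) ^ 2 -
        ∑ j, ∑ l, (1 / 2) * (((m : ℝ) + n) * (W.w j l * b j l ^ 2)) := by
    simp only [Finset.sum_sub_distrib]
  rw [hsplit, ← hx, ← hd, ← hE, ← hL, ← hw]
  have eA : ∑ k, ∑ j, a k j * W.yA a b k j = ∑ k, ∑ j, a k j * (W.L0 * a k j) +
      ∑ k, ∑ j, a k j * ∑ i, W.x k i * (a k j - a i j) +
      ∑ k, ∑ j, a k j * ∑ l, W.d j l k * (a k j - a k l - b j l) +
      ∑ k, ∑ j, a k j * W.G b j := by
    simp only [← Finset.sum_add_distrib]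
    refine Finset.sum_congr rfl fun k _ => Finset.sum_congr rfl fun j _ => ?_
    unfold yA; ring
  have eB : ∑ j, ∑ l, b j l * W.yB a b j l = ∑ j, ∑ l, b j l * (W.L0 * b j l) +
      ∑ j, ∑ l, b j l * ∑ i, W.d j l i * (b j l + a i l - a i j) +
      ∑ j, ∑ l, b j l * ∑ h, W.E j l h * (b j l + b l h + b h j) -
      ∑ j, ∑ l, b j l * (((m : ℝ) + n) * (W.w j l * b j l)) +
      (∑ j, ∑ l, b j l * W.G b j - ∑ j, ∑ l, b j l * W.G b l) := by
    simp only [← Finset.sum_add_distrib, ← Finset.sum_sub_distrib]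
    refine Finset.sum_congr rfl fun k _ => Finset.sum_congr rfl fun j _ => ?_
    unfold yB; ring
  rw [eA, eB]
  linarith

/-- the lower bound for the part of the form containing `d` -/
theorem part_ge (hf : W.Flow a b) (j l : Fin n) :
    ∑ h, ((1 / 2) * (W.w j l * b j l ^ 2) - W.w j l * b j l * (b j l + b l h + b h j)) ≤
      (1 / 2) * ∑ k, W.d j l k * (a k j - a k l - b j l) ^ 2 -
        (1 / 2) * (((m : ℝ) + n) * (W.w j l * b j l ^ 2)) := by
  have hw := W.w_nonneg j l
  have h1 : ∑ k, (-(W.w j l * b j l * (a k j - a k l)) -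
      W.w j l * b j l * (a k j - a k l - b j l)) ≤
      ∑ k, W.d j l k * (a k j - a k l - b j l) ^ 2 := by
    apply Finset.sum_le_sum
    intro k _
    have h2 := W.d_ge j l k
    have h3 : W.w j l * (a k j - a k l - b j l) ^ 2 ≤
        W.d j l k * (a k j - a k l - b j l) ^ 2 := by gcongr
    have h4 : 0 ≤ W.w j l * (a k j - a k l) ^ 2 := by positivity
    nlinarith
  have hcol : ∀ l, ∑ k, a k l = -∑ h, b l h := fun l => by
    have := hf.f2 l
    linarith
  have hb2 : ∑ h, b h j = -∑ h, b j h := by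
    rw [← Finset.sum_neg_distrib]
    exact Finset.sum_congr rfl fun h _ => hf.anti j h
  have h2 : ∑ k, (-(W.w j l * b j l * (a k j - a k l)) -
      W.w j l * b j l * (a k j - a k l - b j l)) =
      W.w j l * b j l * (2 * (∑ h, b j h - ∑ h, b l h) + m * b j l) := by
    simp only [Finset.sum_sub_distrib, Finset.sum_neg_distrib, ← Finset.mul_sum,
      Finset.sum_const, Finset.card_univ, Fintype.card_fin, nsmul_eq_mul, hcol]
    ring
  have h3 : ∑ h, ((1 / 2) * (W.w j l * b j l ^ 2) -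
      W.w j l * b j l * (b j l + b l h + b h j)) =
      (1 / 2) * (n * (W.w j l * b j l ^ 2)) - W.w j l * b j l * (n * b j l) -
        W.w j l * b j l * (∑ h, b l h - ∑ h, b j h) := by
    simp only [Finset.sum_sub_distrib, Finset.sum_add_distrib, ← Finset.mul_sum,
      Finset.sum_const, Finset.card_univ, Fintype.card_fin, nsmul_eq_mul, hb2]
    ring
  rw [h2] at h1
  rw [h3]
  nlinarith

/-- the term of three lines -/
theorem F_ge (hf : W.Flow a b) (j l h : Fin n) :
    (if W.p j = W.p h then 2 * (W.w j l * (b j l * b h l)) else 0) +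
    (if W.p l = W.p j then 2 * (W.w l h * (b l h * b j h)) else 0) +
    (if W.p h = W.p l then 2 * (W.w h j * (b h j * b l j)) else 0) ≤
    W.E j l h * (b j l + b l h + b h j) ^ 2 -
      2 * (b j l + b l h + b h j) * (W.w j l * b j l + W.w l h * b l h + W.w h j * b h j) +
      (W.w j l * b j l ^ 2 + W.w l h * b l h ^ 2 + W.w h j * b h j ^ 2) := by
  -- the case of exactly one pair of parallel lines
  have key : ∀ j l h : Fin n, W.p j = W.p h → W.p j ≠ W.p l →
      2 * (W.w j l * (b j l * b h l)) ≤ W.E j l h * (b j l + b l h + b h j) ^ 2 -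
      2 * (b j l + b l h + b h j) * (W.w j l * b j l + W.w l h * b l h + W.w h j * b h j) +
      (W.w j l * b j l ^ 2 + W.w l h * b l h ^ 2 + W.w h j * b h j ^ 2) := by
    intro j l h hjh hjl
    have e1 : b h j = 0 := hf.par h j hjh.symm
    have e2 : W.w h j = 0 := W.w_par h j hjh.symm
    have e3 : W.w l h = W.w j l := by rw [W.w_symm l h, ← W.w_congr j h l hjh]
    have e4 : b h l = -b l h := hf.anti l h
    have hw := W.w_nonneg j l
    by_cases hj : j = h
    · subst hj
      have e5 : b l j = -b j l := hf.anti j l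
      rw [e1, e2, e5]
      rw [e5] at e4
      rw [e3]
      apply le_of_eq
      ring
    · have e5 : W.w j l ≤ W.E j l h := by
        rw [W.E_sw, W.E_par j h l hjh hj hjl]
        have := W.v_nonneg j h hjh
        linarith
      rw [e1, e2, e3, e4]
      have h5 : 0 ≤ (W.E j l h - W.w j l) * (b j l + b l h) ^ 2 :=
        mul_nonneg (by linarith) (sq_nonneg _)
      nlinarith
  have hz : ∀ j l, W.p j = W.p l → b j l = 0 := hf.par
  by_cases h1 : W.p j = W.p h
  · by_cases h2 : W.p j = W.p l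
    · -- all parallel
      have e1 : b j l = 0 := hz j l h2
      have e2 : b l h = 0 := hz l h (h2.symm.trans h1)
      have e3 : b h j = 0 := hz h j h1.symm
      rw [e1, e2, e3]
      simp
    · rw [if_pos h1, if_neg (Ne.symm h2), if_neg (fun h3 => h2 (h1.trans h3)), add_zero,
        add_zero]
      exact key j l h h1 h2
  · by_cases h2 : W.p l = W.p j
    · rw [if_neg h1, if_pos h2, if_neg (fun h3 => h1 (by rw [← h2, h3])), zero_add, add_zero]
      refine (key l h j h2 (fun h3 => h1 (by rw [← h2, h3]))).trans (le_of_eq ?_)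
      rw [W.E_cyc j l h]
      ring
    · by_cases h3 : W.p h = W.p l
      · rw [if_neg h1, if_neg h2, if_pos h3, zero_add, zero_add]
        refine (key h j l h3 (Ne.symm h1)).trans (le_of_eq ?_)
        rw [W.E_cyc h j l]
        ring
      · rw [if_neg h1, if_neg h2, if_neg h3, add_zero, add_zero]
        apply tri (W.w_nonneg _ _) (W.w_nonneg _ _) (W.w_nonneg _ _)
        · have := W.E_ge l h j (Ne.symm h3) h2 (Ne.symm h1)
          rw [W.w_symm l j, ← W.E_cyc j l h] at this
          linarith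
        · have := W.E_ge h j l (Ne.symm h1) h3 (Ne.symm h2)
          rw [W.w_symm h l, W.E_cyc h j l] at this
          linarith
        · have := W.E_ge j l h (Ne.symm h2) h1 (Ne.symm h3)
          rw [W.w_symm j h] at this
          linarith

/-- the form is bounded below -/
theorem form_ge (hf : W.Flow a b) :
    W.L0 * (∑ k, ∑ j, a k j ^ 2 + (1 / 2) * ∑ j, ∑ l, b j l ^ 2) ≤
    ∑ k, ∑ j, a k j * W.yA a b k j + (1 / 2) * ∑ j, ∑ l, b j l * W.yB a b j l := by
  rw [form_eq hf]
  have h1 : 0 ≤ ∑ j, ∑ k, ∑ i, (1 / 2) * (W.x k i * (a k j - a i j) ^ 2) :=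
    Finset.sum_nonneg fun j _ => Finset.sum_nonneg fun k _ => Finset.sum_nonneg fun i _ => by
      have := W.x_nonneg k i
      positivity
  have h2 : ∑ j, ∑ l, ∑ h, ((1 / 2) * (W.w j l * b j l ^ 2) -
      W.w j l * b j l * (b j l + b l h + b h j)) ≤
      ∑ j, ∑ l, ((1 / 2) * ∑ k, W.d j l k * (a k j - a k l - b j l) ^ 2 -
        (1 / 2) * (((m : ℝ) + n) * (W.w j l * b j l ^ 2))) :=
    Finset.sum_le_sum fun j _ => Finset.sum_le_sum fun l _ => part_ge hf j l
  set Gf : Fin n → Fin n → Fin n → ℝ := fun j l h =>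
    if W.p j = W.p h then 2 * (W.w j l * (b j l * b h l)) else 0 with hGf
  have h3 : 0 ≤ ∑ j, ∑ l, ∑ h, Gf j l h := by
    rw [Finset.sum_comm]
    apply Finset.sum_nonneg
    intro l _
    have h4 := psd W.p (fun j => Real.sqrt (W.w j l) * b j l)
    have h5 : ∑ j, ∑ h, Gf j l h = 2 * ∑ j, ∑ h, (if W.p j = W.p h then
        (Real.sqrt (W.w j l) * b j l) * (Real.sqrt (W.w h l) * b h l) else 0) := by
      rw [Finset.mul_sum]
      apply Finset.sum_congr rfl
      intro j _
      rw [Finset.mul_sum]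
      apply Finset.sum_congr rfl
      intro h _
      simp only [hGf]
      by_cases hp : W.p j = W.p h
      · rw [if_pos hp, if_pos hp, ← W.w_congr j h l hp]
        have := Real.mul_self_sqrt (W.w_nonneg j l)
        linear_combination (-2 * (b j l * b h l)) * this
      · rw [if_neg hp, if_neg hp, mul_zero]
    rw [h5]
    linarith
  have h4 : ∑ j, ∑ l, ∑ h, ((1 / 2) * (W.w j l * b j l ^ 2) -
      W.w j l * b j l * (b j l + b l h + b h j)) +
      ∑ j, ∑ l, ∑ h, (1 / 6) * (W.E j l h * (b j l + b l h + b h j) ^ 2) =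
      ∑ j, ∑ l, ∑ h, (1 / 6) * (W.E j l h * (b j l + b l h + b h j) ^ 2 -
      2 * (b j l + b l h + b h j) * (W.w j l * b j l + W.w l h * b l h + W.w h j * b h j) +
      (W.w j l * b j l ^ 2 + W.w l h * b l h ^ 2 + W.w h j * b h j ^ 2)) := by
    simp only [← Finset.sum_add_distrib]
    rw [sum_symm3]
    apply Finset.sum_congr rfl
    intro j _
    apply Finset.sum_congr rfl
    intro l _
    apply Finset.sum_congr rfl
    intro h _
    rw [← W.E_cyc j l h, W.E_cyc h j l]
    ring
  have h5 : (1 / 2) * ∑ j, ∑ l, ∑ h, Gf j l h ≤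
      ∑ j, ∑ l, ∑ h, (1 / 6) * (W.E j l h * (b j l + b l h + b h j) ^ 2 -
      2 * (b j l + b l h + b h j) * (W.w j l * b j l + W.w l h * b l h + W.w h j * b h j) +
      (W.w j l * b j l ^ 2 + W.w l h * b l h ^ 2 + W.w h j * b h j ^ 2)) := by
    rw [sum_symm3, Finset.mul_sum]
    apply Finset.sum_le_sum
    intro j _
    rw [Finset.mul_sum]
    apply Finset.sum_le_sum
    intro l _
    rw [Finset.mul_sum]
    apply Finset.sum_le_sum
    intro h _
    have h6 := F_ge hf j l h
    simp only [hGf]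
    linarith
  linarith

/-- antisymmetry -/
theorem yB_anti (hf : W.Flow a b) (j l : Fin n) : W.yB a b l j = -W.yB a b j l := by
  unfold yB
  rw [hf.anti j l, W.w_symm l j]
  have h1 : ∑ i, W.d l j i * (-b j l + a i j - a i l) =
      -∑ i, W.d j l i * (b j l + a i l - a i j) := by
    rw [← Finset.sum_neg_distrib]
    apply Finset.sum_congr rfl
    intro i _
    rw [W.d_symm l j]; ring
  have h2 : ∑ h, W.E l j h * (-b j l + b j h + b h l) =
      -∑ h, W.E j l h * (b j l + b l h + b h j) := by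
    rw [← Finset.sum_neg_distrib]
    apply Finset.sum_congr rfl
    intro h _
    have h3 : W.E l j h = W.E j l h := by
      rw [W.E_cyc l j h, W.E_sw j h l]
    rw [h3, hf.anti h j, hf.anti l h]; ring
  rw [h1, h2]
  ring

/-- the values of parallel lines vanish -/
theorem yB_par (hf : W.Flow a b) (j l : Fin n) (hp : W.p j = W.p l) : W.yB a b j l = 0 := by
  have hcol : ∀ l, ∑ k, a k l = -∑ h, b l h := fun l => by
    have := hf.f2 l
    linarith
  unfold yB
  rw [hf.par j l hp, W.w_par j l hp]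
  have h1 : ∑ i, W.d j l i * (0 + a i l - a i j) = W.v j l * (∑ h, b j h - ∑ h, b l h) := by
    have : ∀ i, W.d j l i * (0 + a i l - a i j) = W.v j l * (a i l - a i j) := by
      intro i
      rw [W.d_par j l i hp]; ring
    simp only [this]
    rw [← Finset.mul_sum, Finset.sum_sub_distrib, hcol, hcol]
    ring
  have h2 : ∑ h, W.E j l h * (0 + b l h + b h j) =
      W.v j l * (∑ h, b l h - ∑ h, b j h) + W.G b l - W.G b j := by
    have h3 : ∀ h, W.E j l h * (0 + b l h + b h j) =
        W.v j l * (b l h - b j h) + (W.w l h * b l h - W.w j h * b j h) := by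
      intro h
      rw [hf.anti j h]
      by_cases hj : j = l
      · subst hj; ring
      by_cases hh : W.p j = W.p h
      · rw [hf.par j h hh, hf.par l h (hp.symm.trans hh)]; ring
      · rw [W.E_par j l h hp hj hh, W.w_congr j l h hp]; ring
    simp only [h3]
    rw [Finset.sum_add_distrib, ← Finset.mul_sum, Finset.sum_sub_distrib,
      Finset.sum_sub_distrib]
    unfold G
    ring
  rw [h1, h2]
  ring

/-- the relation at a vertical line -/
theorem rel1 (hf : W.Flow a b) (k : Fin m) : ∑ j, W.yA a b k j = 0 := by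
  unfold yA
  rw [Finset.sum_add_distrib, Finset.sum_add_distrib, Finset.sum_add_distrib, ← Finset.mul_sum,
    hf.f1, Finset.sum_comm (f := fun j i => W.x k i * (a k j - a i j))]
  have h1 : ∑ i, ∑ j, W.x k i * (a k j - a i j) = 0 := by
    apply Finset.sum_eq_zero
    intro i _
    rw [← Finset.mul_sum, Finset.sum_sub_distrib, hf.f1, hf.f1]; ring
  have h2 : ∑ j, ∑ l, W.d j l k * (a k j - a k l - b j l) = 0 := by
    apply sum_anti
    intro j l
    rw [W.d_symm l j, hf.anti j l]; ring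
  have h3 : ∑ j, W.G b j = 0 := by
    unfold G
    apply sum_anti
    intro j l
    rw [W.w_symm l j, hf.anti j l]; ring
  rw [h1, h2, h3]; ring

/-- the relation at a line of the second kind -/
theorem rel2 (hf : W.Flow a b) (j : Fin n) : ∑ k, W.yA a b k j + ∑ l, W.yB a b j l = 0 := by
  have hcol : ∑ k, a k j = -∑ h, b j h := by
    have := hf.f2 j
    linarith
  have h1 : ∑ k, W.yA a b k j = -W.L0 * ∑ h, b j h +
      ∑ k, ∑ l, W.d j l k * (a k j - a k l - b j l) + m * W.G b j := by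
    unfold yA
    rw [Finset.sum_add_distrib, Finset.sum_add_distrib, Finset.sum_add_distrib, ← Finset.mul_sum,
      hcol]
    have e1 : ∑ k, ∑ i, W.x k i * (a k j - a i j) = 0 := by
      apply sum_anti
      intro k i
      rw [W.x_symm i k]; ring
    rw [e1, Finset.sum_const, Finset.card_univ, Fintype.card_fin, nsmul_eq_mul]; ring
  have h2 : ∑ l, W.yB a b j l = W.L0 * ∑ h, b j h +
      ∑ k, ∑ l, W.d j l k * (b j l + a k l - a k j) - m * W.G b j := by
    unfold yB
    rw [Finset.sum_sub_distrib, Finset.sum_add_distrib, Finset.sum_sub_distrib,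
      Finset.sum_add_distrib, Finset.sum_add_distrib, ← Finset.mul_sum, ← Finset.mul_sum]
    have e1 : ∑ l, ∑ h, W.E j l h * (b j l + b l h + b h j) = 0 := by
      apply sum_anti
      intro l h
      rw [W.E_sw j h l, hf.anti l h, hf.anti j l, hf.anti j h]; ring
    have e2 : ∑ l, ∑ i, W.d j l i * (b j l + a i l - a i j) =
        ∑ k, ∑ l, W.d j l k * (b j l + a k l - a k j) := Finset.sum_comm
    have e3 : ∑ l, W.G b l = 0 := by
      unfold G
      apply sum_anti
      intro j l
      rw [W.w_symm l j, hf.anti j l]; ring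
    have e4 : ∑ i, W.w j i * b j i = W.G b j := rfl
    rw [e1, e2, e3, e4, Finset.sum_const, Finset.card_univ, Fintype.card_fin, nsmul_eq_mul]
    ring
  have h3 : ∑ k, ∑ l, W.d j l k * (a k j - a k l - b j l) +
      ∑ k, ∑ l, W.d j l k * (b j l + a k l - a k j) = 0 := by
    rw [← Finset.sum_add_distrib]
    apply Finset.sum_eq_zero
    intro k _
    rw [← Finset.sum_add_distrib]
    apply Finset.sum_eq_zero
    intro l _
    ring
  rw [h1, h2]
  linear_combination h3

/-- The main estimate: a flow is small if the values at the crossings outside of the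
spanning tree are small. -/
theorem flow_le (hf : W.Flow a b) (i0 : Fin m) (j0 : Fin n) {V e : ℝ}
    (hVa : ∀ k j, |a k j| ≤ V) (hVb : ∀ j l, |b j l| ≤ V)
    (hA : ∀ k j, k ≠ i0 → j ≠ j0 → |W.yA a b k j| ≤ e)
    (hB : ∀ j l, j < l → W.p j ≠ W.p l → |W.yB a b j l| ≤ e) (he : 0 ≤ e) :
    W.L0 * (∑ k, ∑ j, a k j ^ 2 + (1 / 2) * ∑ j, ∑ l, b j l ^ 2) ≤
      ((m : ℝ) * n + n ^ 2) * (V * (((m : ℝ) * n + m + n + 1) * e)) := by
  have hV0 : 0 ≤ V := (abs_nonneg _).trans (hVb j0 j0)
  have hm0 : (0 : ℝ) ≤ m := Nat.cast_nonneg _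
  have hn0 : (0 : ℝ) ≤ n := Nat.cast_nonneg _
  have hm1 : (1 : ℝ) ≤ m := by exact_mod_cast (by have := i0.2; omega : 1 ≤ m)
  have hn1 : (1 : ℝ) ≤ n := by exact_mod_cast (by have := j0.2; omega : 1 ≤ n)
  have hB' : ∀ j l, |W.yB a b j l| ≤ e := by
    intro j l
    by_cases h : W.p j = W.p l
    · rw [yB_par hf j l h, abs_zero]; exact he
    rcases lt_trichotomy j l with h1 | h1 | h1
    · exact hB j l h1 h
    · exact absurd (by rw [h1]) h
    · rw [yB_anti hf l j, abs_neg]
      exact hB l j h1 (Ne.symm h)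
  -- the values at the first line of the second kind
  have hA0 : ∀ k, k ≠ i0 → ∀ j, |W.yA a b k j| ≤ n * e := by
    intro k hk j
    by_cases hj : j = j0
    · subst hj
      have h1 := rel1 hf k
      rw [← Finset.add_sum_erase _ _ (Finset.mem_univ j)] at h1
      have h2 : W.yA a b k j = -∑ l ∈ Finset.univ.erase j, W.yA a b k l := by linarith
      rw [h2, abs_neg]
      refine (Finset.abs_sum_le_sum_abs _ _).trans ?_
      have h3 : ∑ l ∈ Finset.univ.erase j, |W.yA a b k l| ≤ ∑ _l ∈ Finset.univ.erase j, e :=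
        Finset.sum_le_sum fun l hl => hA k l hk (Finset.ne_of_mem_erase hl)
      refine h3.trans ?_
      rw [Finset.sum_const, nsmul_eq_mul]
      have h4 : ((Finset.univ.erase j).card : ℝ) ≤ n := by
        have h7 := Finset.card_le_univ (Finset.univ.erase j)
        rw [Fintype.card_fin] at h7
        exact_mod_cast h7
      gcongr
    · refine (hA k j hk hj).trans ?_
      exact le_mul_of_one_le_left he hn1
  set e1 : ℝ := ((m : ℝ) * n + m + n + 1) * e with he1
  have hall : ∀ k j, |W.yA a b k j| ≤ e1 := by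
    intro k j
    by_cases hk : k = i0
    · subst hk
      have h1 := rel2 hf j
      rw [← Finset.add_sum_erase _ _ (Finset.mem_univ k)] at h1
      have h2 : |∑ i ∈ Finset.univ.erase k, W.yA a b i j| ≤ m * (n * e) := by
        refine (Finset.abs_sum_le_sum_abs _ _).trans ?_
        have h3 : ∑ i ∈ Finset.univ.erase k, |W.yA a b i j| ≤
            ∑ _i ∈ Finset.univ.erase k, (n * e) :=
          Finset.sum_le_sum fun i hi => hA0 i (Finset.ne_of_mem_erase hi) j
        refine h3.trans ?_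
        rw [Finset.sum_const, nsmul_eq_mul]
        have h4 : ((Finset.univ.erase k).card : ℝ) ≤ m := by
          have h7 := Finset.card_le_univ (Finset.univ.erase k)
          rw [Fintype.card_fin] at h7
          exact_mod_cast h7
        gcongr
      have h3 : |∑ l, W.yB a b j l| ≤ n * e := by
        refine (Finset.abs_sum_le_sum_abs _ _).trans ?_
        have h4 : ∑ l, |W.yB a b j l| ≤ ∑ _l : Fin n, e :=
          Finset.sum_le_sum fun l _ => hB' j l
        refine h4.trans ?_
        rw [Finset.sum_const, nsmul_eq_mul, Finset.card_univ, Fintype.card_fin]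
      rw [abs_le] at h2 h3 ⊢
      have h5 : 0 ≤ (m : ℝ) * e := by positivity
      rw [he1]
      constructor <;> nlinarith [h2.1, h2.2, h3.1, h3.2]
    · refine (hA0 k hk j).trans ?_
      rw [he1]
      have : 0 ≤ (m : ℝ) * n * e := by positivity
      have : 0 ≤ (m : ℝ) * e := by positivity
      nlinarith
  have he1' : e ≤ e1 := by
    rw [he1]
    have : 0 ≤ ((m : ℝ) * n + m + n) * e := by positivity
    nlinarith
  have he10 : 0 ≤ e1 := he.trans he1'
  refine (form_ge hf).trans ?_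
  have h1 : ∑ k, ∑ j, a k j * W.yA a b k j ≤ (m : ℝ) * n * (V * e1) := by
    have h2 : ∀ k ∈ (Finset.univ : Finset (Fin m)), ∑ j, a k j * W.yA a b k j ≤ n * (V * e1) := by
      intro k _
      have h3 : ∑ j, a k j * W.yA a b k j ≤ ∑ _j : Fin n, V * e1 := by
        apply Finset.sum_le_sum
        intro j _
        refine (le_abs_self _).trans ?_
        rw [abs_mul]
        exact mul_le_mul (hVa k j) (hall k j) (abs_nonneg _) hV0
      refine h3.trans ?_
      rw [Finset.sum_const, nsmul_eq_mul, Finset.card_univ, Fintype.card_fin]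
    refine (Finset.sum_le_sum h2).trans ?_
    rw [Finset.sum_const, nsmul_eq_mul, Finset.card_univ, Fintype.card_fin]
    apply le_of_eq; ring
  have h2 : ∑ j, ∑ l, b j l * W.yB a b j l ≤ (n : ℝ) ^ 2 * (V * e1) := by
    have h2 : ∀ j ∈ (Finset.univ : Finset (Fin n)), ∑ l, b j l * W.yB a b j l ≤ n * (V * e1) := by
      intro j _
      have h3 : ∑ l, b j l * W.yB a b j l ≤ ∑ _l : Fin n, V * e1 := by
        apply Finset.sum_le_sum
        intro l _
        refine (le_abs_self _).trans ?_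
        rw [abs_mul]
        exact mul_le_mul (hVb j l) ((hB' j l).trans he1') (abs_nonneg _) hV0
      refine h3.trans ?_
      rw [Finset.sum_const, nsmul_eq_mul, Finset.card_univ, Fintype.card_fin]
    refine (Finset.sum_le_sum h2).trans ?_
    rw [Finset.sum_const, nsmul_eq_mul, Finset.card_univ, Fintype.card_fin]
    apply le_of_eq; ring
  have h3 : 0 ≤ (n : ℝ) ^ 2 * (V * e1) := by positivity
  linarith

end Wt

end MP743d1e.W
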