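import Pool.Agent.Lib.MP_743d1e_nt.Defs

/-!
# Separated arrangements
-/

set_option autoImplicit false

namespace MP743d1e.W

/-- The lines of the arrangement are separated by `t`: distinct lines `x = a i` have distance at
least `t`, the abscissae of the crossings of the lines `y = p j * x + q j` have distance at least
`t` from the `a i` and, if distinct, from each other, and parallel lines `y = p j * x + q j` have
constant terms differing by at least `t`. Since the data are integral, this always holds for
`t = 1`. -/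
structure SepT (D : Arr) (t : ℝ) : Prop where
  aa : ∀ i k, i ≠ k → t ≤ |(D.a i : ℝ) - D.a k|
  ra : ∀ j l i, D.p j ≠ D.p l → t ≤ |(D.r j l : ℝ) - D.a i|
  rr : ∀ j l j' l', D.p j ≠ D.p l → D.p j' ≠ D.p l' → D.r j l ≠ D.r j' l' →
    t ≤ |(D.r j l : ℝ) - D.r j' l'|
  qq : ∀ j l, j ≠ l → D.p j = D.p l → t ≤ |(D.q j : ℝ) - D.q l|

/-- The distances of the lines of the arrangement are at most `h * t`: this holds for the distances
of the lines `x = a i`, for the distances of the abscissae of the crossings of the lines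
`y = p j * x + q j` from the `a i` and from each other, and for the differences of the constant
terms of parallel lines `y = p j * x + q j`; and the differences of the slopes are at most `h`. -/
structure BddT (D : Arr) (t h : ℝ) : Prop where
  aa : ∀ i k, |(D.a i : ℝ) - D.a k| ≤ h * t
  ra : ∀ j l i, D.p j ≠ D.p l → |(D.r j l : ℝ) - D.a i| ≤ h * t
  rr : ∀ j l j' l', D.p j ≠ D.p l → D.p j' ≠ D.p l' → |(D.r j l : ℝ) - D.r j' l'| ≤ h * t
  qq : ∀ j l, D.p j = D.p l → |(D.q j : ℝ) - D.q l| ≤ h * t
  pp : ∀ j l, |(D.p j : ℝ) - D.p l| ≤ h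

theorem abs_int_ge {z w : ℤ} (h : z ≠ w) : (1 : ℝ) ≤ |(z : ℝ) - w| := by
  have : (1 : ℤ) ≤ |z - w| := Int.one_le_abs (sub_ne_zero.2 h)
  exact_mod_cast this

/-- every arrangement is separated by `1` -/
theorem sepT_one (D : Arr) : SepT D 1 where
  aa i k h := abs_int_ge fun h' => h (D.a_inj h')
  ra j l i h := abs_int_ge (D.cross_a j l i h)
  rr j l j' l' _ _ h := abs_int_ge h
  qq j l h hp := abs_int_ge fun h' => h (D.line_inj j l hp h')

theorem exists_bound {α : Type} [Finite α] (f : α → ℝ) : ∃ M : ℝ, ∀ a, f a ≤ M := by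
  obtain ⟨M, hM⟩ := (Set.finite_range f).bddAbove
  exact ⟨M, fun a => hM ⟨a, rfl⟩⟩

/-- the distances in an arrangement are bounded -/
theorem exists_bddT (D : Arr) : ∃ h : ℝ, 1 ≤ h ∧ BddT D 1 h := by
  obtain ⟨h1, k1⟩ := exists_bound fun z : Fin D.m × Fin D.m => |(D.a z.1 : ℝ) - D.a z.2|
  obtain ⟨h2, k2⟩ := exists_bound fun z : (Fin D.n × Fin D.n) × Fin D.m =>
    |(D.r z.1.1 z.1.2 : ℝ) - D.a z.2|
  obtain ⟨h3, k3⟩ := exists_bound fun z : (Fin D.n × Fin D.n) × (Fin D.n × Fin D.n) =>
    |(D.r z.1.1 z.1.2 : ℝ) - D.r z.2.1 z.2.2|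
  obtain ⟨h4, k4⟩ := exists_bound fun z : Fin D.n × Fin D.n => |(D.q z.1 : ℝ) - D.q z.2|
  obtain ⟨h5, k5⟩ := exists_bound fun z : Fin D.n × Fin D.n => |(D.p z.1 : ℝ) - D.p z.2|
  refine ⟨1 + |h1| + |h2| + |h3| + |h4| + |h5|, ?_, ?_⟩
  · have := abs_nonneg h1
    have := abs_nonneg h2
    have := abs_nonneg h3
    have := abs_nonneg h4
    have := abs_nonneg h5
    linarith
  · have e1 := abs_nonneg h1
    have e2 := abs_nonneg h2
    have e3 := abs_nonneg h3
    have e4 := abs_nonneg h4
    have e5 := abs_nonneg h5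
    have f1 := le_abs_self h1
    have f2 := le_abs_self h2
    have f3 := le_abs_self h3
    have f4 := le_abs_self h4
    have f5 := le_abs_self h5
    refine ⟨fun i k => ?_, fun j l i _ => ?_, fun j l j' l' _ _ => ?_, fun j l _ => ?_,
      fun j l => ?_⟩
    · have := k1 (i, k)
      simp only at this
      linarith
    · have := k2 ((j, l), i)
      simp only at this
      linarith
    · have := k3 ((j, l), (j', l'))
      simp only at this
      linarith
    · have := k4 (j, l)
      simp only at this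
      linarith
    · have := k5 (j, l)
      simp only at this
      linarith

end MP743d1e.W
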