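import Pool.Agent.Lib.MP_743d1e_nt.W.Defs
import Pool.Agent.Lib.MP_743d1e_nt.W.Sep
import Pool.Agent.Lib.MP_743d1e_nt.W.NETW

/-!
# MODW: the weights of an arrangement and the model of the regulator, for arbitrary slopes
-/

set_option autoImplicit false

namespace MP743d1e.W

open scoped BigOperators

namespace MODW

variable (D : Arr)

/-- the determinant of three lines -/
def Dl (j l h : Fin D.n) : ℤ :=
  D.p j * (D.q l - D.q h) + D.p l * (D.q h - D.q j) + D.p h * (D.q j - D.q l)

/-- the value of a line at an integer -/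
def bb (j : Fin D.n) (c : ℤ) : ℤ := D.p j * c + D.q j

theorem Dl_sw (j l h : Fin D.n) : Dl D j h l = -Dl D j l h := by unfold Dl; ring

theorem Dl_cyc (j l h : Fin D.n) : Dl D l h j = Dl D j l h := by unfold Dl; ring

theorem Dl_self (j l : Fin D.n) : Dl D j l j = 0 := by unfold Dl; ring

theorem Dl_self' (j l : Fin D.n) : Dl D j l l = 0 := by unfold Dl; ring

theorem Dl_eq (j l h : Fin D.n) (hp : D.p j ≠ D.p l) :
    Dl D j l h = -((D.p j - D.p l) * (bb D h (D.r j l) - bb D j (D.r j l))) := by
  have h1 := D.cross j l hp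
  unfold Dl bb
  linear_combination (D.p h - D.p j) * h1

theorem bb_np (j h : Fin D.n) (c : ℤ) (hp : D.p j ≠ D.p h) :
    bb D h c - bb D j c = (D.p h - D.p j) * (c - D.r j h) := by
  have h1 := D.cross j h hp
  unfold bb
  linear_combination -h1

theorem r_symm {j l : Fin D.n} (h : D.p j ≠ D.p l) : D.r j l = D.r l j :=
  K2Main.r_symm D h

/-- case of a parallel line -/
theorem Dl_par (j l h : Fin D.n) (hp : D.p j ≠ D.p l) (hh : D.p j = D.p h) :
    |((Dl D j l h : ℤ) : ℝ)| = |(D.p j : ℝ) - D.p l| * |(D.q j : ℝ) - D.q h| := by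
  have h1 : Dl D j l h = (D.p j - D.p l) * (D.q j - D.q h) := by
    rw [Dl_eq D j l h hp]; unfold bb; rw [← hh]; ring
  rw [h1]; push_cast; rw [abs_mul]

theorem Dl_np (j l h : Fin D.n) (hp : D.p j ≠ D.p l) (hh : D.p j ≠ D.p h) :
    |((Dl D j l h : ℤ) : ℝ)| = |(D.p j : ℝ) - D.p l| * |(D.p j : ℝ) - D.p h| *
      |(D.r j l : ℝ) - D.r j h| := by
  have h1 : Dl D j l h = (D.p j - D.p l) * (D.p j - D.p h) * (D.r j l - D.r j h) := by
    rw [Dl_eq D j l h hp, bb_np D j h _ hh]; ring
  rw [h1]; push_cast; rw [abs_mul, abs_mul]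

theorem Dl_np' (j l h : Fin D.n) (hp : D.p j ≠ D.p l) (hh : D.p l ≠ D.p h) :
    |((Dl D j l h : ℤ) : ℝ)| = |(D.p j : ℝ) - D.p l| * |(D.p l : ℝ) - D.p h| *
      |(D.r j l : ℝ) - D.r l h| := by
  have h1 : Dl D j l h = -Dl D l j h := by unfold Dl; ring
  rw [h1]; push_cast
  rw [abs_neg, Dl_np D l j h hp.symm hh, r_symm D hp, abs_sub_comm (D.p j : ℝ)]

theorem one_le_p {j l : Fin D.n} (hp : D.p j ≠ D.p l) : (1 : ℝ) ≤ |(D.p j : ℝ) - D.p l| := by
  have : (1 : ℤ) ≤ |D.p j - D.p l| := Int.one_le_abs (sub_ne_zero.2 hp)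
  exact_mod_cast this

variable {D} {R : ℝ}

theorem lw_nonneg (j l : Fin D.n) : 0 ≤ lw D j l := by
  unfold lw
  split_ifs with h
  · exact le_rfl
  · exact Real.log_nonneg (one_le_p D h)

theorem lw_symm (j l : Fin D.n) : lw D j l = lw D l j := by
  unfold lw
  by_cases h : D.p j = D.p l
  · rw [if_pos h, if_pos h.symm]
  · rw [if_neg h, if_neg (Ne.symm h), abs_sub_comm]

theorem lw_par {j l : Fin D.n} (h : D.p j = D.p l) : lw D j l = 0 := by
  unfold lw; rw [if_pos h]

theorem lw_np {j l : Fin D.n} (h : D.p j ≠ D.p l) : lw D j l = Real.log |(D.p j : ℝ) - D.p l| := by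
  unfold lw; rw [if_neg h]

theorem lw_congr {j l : Fin D.n} (h : Fin D.n) (hp : D.p j = D.p l) : lw D j h = lw D l h := by
  unfold lw; rw [hp]

theorem log_div_nonneg {x : ℝ} (hR : 0 < R) (h : 4 * R ≤ x) : 0 ≤ Real.log (x / R) := by
  apply Real.log_nonneg
  rw [one_le_div hR]
  linarith

theorem xi_symm (R : ℝ) (c s : ℤ) : xi R c s = xi R s c := by
  unfold xi; rw [abs_sub_comm]

theorem xi_self (R : ℝ) (c : ℤ) : xi R c c = 0 := by
  unfold xi; simp

theorem xi_nonneg (hR : 0 < R) {c s : ℤ} (h : c ≠ s → 4 * R ≤ |(c : ℝ) - s|) :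
    0 ≤ xi R c s := by
  by_cases hc : c = s
  · subst hc; rw [xi_self]
  · exact log_div_nonneg hR (h hc)

/-- the normalised logarithm of the size of a triangle -/
noncomputable def EE (D : Arr) (R : ℝ) (j l h : Fin D.n) : ℝ :=
  Real.log (|((Dl D j l h : ℤ) : ℝ)| / R)

theorem EE_sw (j l h : Fin D.n) : EE D R j l h = EE D R j h l := by
  unfold EE; rw [Dl_sw D j l h]; push_cast; rw [abs_neg]

theorem EE_cyc (j l h : Fin D.n) : EE D R j l h = EE D R l h j := by
  unfold EE; rw [Dl_cyc D j l h]

theorem EE_par (hR : 0 < R) (hs : SepT D (4 * R)) {j l h : Fin D.n} (hp : D.p j ≠ D.p l)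
    (hh : D.p j = D.p h) (hj : h ≠ j) :
    EE D R j l h = lw D j l + nu D R j h := by
  unfold EE nu
  rw [Dl_par D j l h hp hh, if_pos hh, lw_np hp]
  have h1 := one_le_p D hp
  have h2 := hs.qq j h (Ne.symm hj) hh
  have h3 : 0 < |(D.q j : ℝ) - D.q h| := by linarith
  rw [mul_div_assoc, Real.log_mul (by linarith) (by positivity)]

theorem EE_np (hR : 0 < R) (hs : SepT D (4 * R)) {j l h : Fin D.n} (hp : D.p j ≠ D.p l)
    (hh : D.p j ≠ D.p h) (hl : h ≠ l) :
    EE D R j l h = lw D j l + lw D j h + xi R (D.r j l) (D.r j h) := by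
  unfold EE xi
  rw [Dl_np D j l h hp hh, lw_np hp, lw_np hh]
  have h1 := one_le_p D hp
  have h2 := one_le_p D hh
  have h3 : 4 * R ≤ |(D.r j l : ℝ) - D.r j h| :=
      hs.rr j l j h hp hh (D.no_triple j l h hp hh (Ne.symm hl))
  have h4 : 0 < |(D.r j l : ℝ) - D.r j h| := by linarith
  rw [mul_div_assoc, Real.log_mul (by positivity) (by positivity),
    Real.log_mul (by linarith) (by linarith)]

theorem EE_np' (hR : 0 < R) (hs : SepT D (4 * R)) {j l h : Fin D.n} (hp : D.p j ≠ D.p l)
    (hh : D.p l ≠ D.p h) (hj : h ≠ j) :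
    EE D R j l h = lw D j l + lw D l h + xi R (D.r j l) (D.r l h) := by
  have h1 : EE D R j l h = EE D R l j h := by
    unfold EE
    have : Dl D j l h = -Dl D l j h := by unfold Dl; ring
    rw [this]; push_cast; rw [abs_neg]
  rw [h1, EE_np hR hs hp.symm hh hj, r_symm D hp, lw_symm j l]

/-- the distance of two lines above a crossing and the size of the triangle -/
theorem EE_bt (hR : 0 < R) (hs : SepT D (4 * R)) {j l h : Fin D.n} (hp : D.p j ≠ D.p l)
    (hj : h ≠ j) (hl : h ≠ l) : EE D R j l h = lw D j l + bt D R j h (D.r j l) := by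
  by_cases hh : D.p j = D.p h
  · rw [EE_par hR hs hp hh hj]
    unfold bt zt
    rw [if_pos hh, lw_par hh, add_zero, add_zero]
  · rw [EE_np hR hs hp hh hl]
    unfold bt nu zt
    rw [if_neg hh, if_neg hh]
    ring

theorem bt_self (j : Fin D.n) (c : ℤ) : bt D R j j c = 0 := by
  unfold bt nu zt lw
  simp

/-- the distance of two lines above a crossing of the first one -/
theorem bt_cross {j l : Fin D.n} (hp : D.p j ≠ D.p l) : bt D R j l (D.r j l) = lw D j l := by
  unfold bt nu zt
  rw [if_neg hp, if_neg hp, xi_self]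
  ring

theorem bt_symm (j l : Fin D.n) (c : ℤ) : bt D R j l c = bt D R l j c := by
  unfold bt nu zt
  rw [lw_symm j l]
  by_cases h : D.p j = D.p l
  · rw [if_pos h, if_pos h.symm, if_pos h, if_pos h.symm, abs_sub_comm]
  · rw [if_neg h, if_neg (Ne.symm h), if_neg h, if_neg (Ne.symm h), r_symm D h]

theorem nu_nonneg (hR : 0 < R) (hs : SepT D (4 * R)) (j l : Fin D.n) : 0 ≤ nu D R j l := by
  unfold nu
  split_ifs with h
  · by_cases hj : j = l
    · subst hj; simp
    · exact log_div_nonneg hR (hs.qq j l hj h)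
  · exact le_rfl

/-- the weights of an arrangement -/
noncomputable def wt (D : Arr) (R L0 : ℝ) (hR : 0 < R) (hs : SepT D (4 * R)) : Wt D.m D.n where
  p := D.p
  L0 := L0
  x k i := xi R (D.a k) (D.a i)
  d j l k := bt D R j l (D.a k)
  v j l := nu D R j l
  w j l := lw D j l
  E j l h := EE D R j l h
  x_symm k i := xi_symm _ _ _
  x_nonneg k i := xi_nonneg hR fun h => hs.aa k i fun h' => h (by rw [h'])
  d_symm j l k := bt_symm j l _
  d_ge j l k := by
    have h1 := nu_nonneg hR hs j l
    have h2 : 0 ≤ zt D R j l (D.a k) := by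
      unfold zt
      split_ifs with h
      · exact le_rfl
      · rw [xi_symm]
        exact xi_nonneg hR fun _ => hs.ra j l k h
    unfold bt
    linarith
  d_par j l k h := by unfold bt zt; rw [if_pos h, lw_par h, add_zero, add_zero]
  v_nonneg j l _ := nu_nonneg hR hs j l
  w_symm := lw_symm
  w_nonneg := lw_nonneg
  w_par j l h := lw_par h
  w_congr j l h hp := lw_congr h hp
  E_sw := EE_sw
  E_cyc := EE_cyc
  E_ge j l h h1 h2 h3 := by
    have hne : h ≠ l := fun h' => h3 (by rw [h'])
    rw [EE_np hR hs h1 h2 hne]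
    have := xi_nonneg hR (c := D.r j l) (s := D.r j h) fun h' => hs.rr j l j h h1 h2 h'
    linarith
  E_par j l h h1 h2 h3 := by
    rw [EE_sw, EE_par hR hs h3 h1 (Ne.symm h2)]
    ring

variable {L0 : ℝ} {a : Fin D.m → Fin D.n → ℝ} {b : Fin D.n → Fin D.n → ℝ}

/-- the total value of the model for a flow -/
noncomputable def val (D : Arr) (R L0 : ℝ) (a : Fin D.m → Fin D.n → ℝ)
    (b : Fin D.n → Fin D.n → ℝ) (j : Fin D.n) (c : ℤ) : ℝ :=
  ∑ i, ∑ l, a i l * Phi D R L0 j c (D.a i) l + ∑ h, ∑ l, b h l * Phi D R L0 j c (D.r h l) h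

theorem valA (hR : 0 < R) (hs : SepT D (4 * R))
    (hf : (wt D R L0 hR hs).Flow a b) (k : Fin D.m) (j : Fin D.n) :
    val D R L0 a b j (D.a k) = (wt D R L0 hR hs).yA a b k j := by
  have hind : ∀ l, ind D j l (D.a k) = 0 := by
    intro l
    unfold ind
    rw [if_neg]
    rintro ⟨h1, h2⟩
    exact D.cross_a j l k h1 h2
  have hdl : ∀ i, dl (D.a k) (D.a i) = if i = k then 1 else 0 := by
    intro i
    unfold dl
    by_cases h : i = k
    · subst h; simp
    · rw [if_neg h, if_neg (fun h' => h (D.a_inj h'))]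
  have hwj : wj D j (D.a k) = 1 := by
    unfold wj
    simp only [hind, hdl]
    simp
  have hom : ∀ l, om D j (D.a k) l = if l = j then -1 else 0 := by
    intro l
    unfold om
    rw [hind, hwj]
    split_ifs <;> ring
  have hdr : ∀ h l, b h l * dl (D.a k) (D.r h l) = 0 := by
    intro h l
    by_cases hp : D.p h = D.p l
    · rw [hf.par h l hp, zero_mul]
    · unfold dl
      rw [if_neg (D.cross_a h l k hp), mul_zero]
  have e1 : ∑ i, ∑ l, a i l * Phi D R L0 j (D.a k) (D.a i) l =
      -(∑ i, a i j * xi R (D.a k) (D.a i)) - ∑ l, a k l * YY D R L0 j (D.a k) l := by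
    unfold Phi
    simp only [hom, hdl]
    have e2 : ∀ i, ∑ l, a i l * (xi R (D.a k) (D.a i) * (if l = j then -1 else 0) -
        YY D R L0 j (D.a k) l * (if i = k then 1 else 0)) =
        -(a i j * xi R (D.a k) (D.a i)) -
          (if i = k then ∑ l, a i l * YY D R L0 j (D.a k) l else 0) := by
      intro i
      simp only [mul_sub, Finset.sum_sub_distrib, mul_ite, mul_zero, mul_one, mul_neg,
        Finset.sum_ite_eq', Finset.mem_univ, if_true]
      congr 1
      split_ifs with h
      · rfl
      · simp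
    simp only [e2, Finset.sum_sub_distrib, Finset.sum_neg_distrib, Finset.sum_ite_eq',
      Finset.mem_univ, if_true]
  have e3 : ∑ h, ∑ l, b h l * Phi D R L0 j (D.a k) (D.r h l) h =
      -∑ l, b j l * zt D R j l (D.a k) := by
    have e4 : ∀ h l, b h l * Phi D R L0 j (D.a k) (D.r h l) h =
        if h = j then -(b h l * zt D R h l (D.a k)) else 0 := by
      intro h l
      unfold Phi
      rw [hom]
      have e5 : b h l * xi R (D.a k) (D.r h l) = b h l * zt D R h l (D.a k) := by
        unfold zt
        by_cases hp : D.p h = D.p l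
        · rw [hf.par h l hp, zero_mul, zero_mul]
        · rw [if_neg hp]
      have e6 := hdr h l
      split_ifs with hj
      · linear_combination (-YY D R L0 j (D.a k) h) * e6 - e5
      · linear_combination (-YY D R L0 j (D.a k) h) * e6
    simp only [e4]
    have e7 : ∀ h, ∑ l, (if h = j then -(b h l * zt D R h l (D.a k)) else 0) =
        if h = j then -∑ l, b h l * zt D R h l (D.a k) else 0 := by
      intro h
      split_ifs
      · rw [Finset.sum_neg_distrib]
      · simp
    simp only [e7, Finset.sum_ite_eq', Finset.mem_univ, if_true]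
  have e8 : ∑ l, a k l * YY D R L0 j (D.a k) l =
      ∑ l, a k l * bt D R j l (D.a k) - a k j * Lam D R L0 j (D.a k) := by
    unfold YY
    simp only [mul_sub, Finset.sum_sub_distrib, mul_ite, mul_zero,
      Finset.sum_ite_eq', Finset.mem_univ, if_true]
  unfold val
  rw [e1, e3, e8]
  unfold Wt.yA Wt.G Lam
  show _ = L0 * a k j + ∑ i, xi R (D.a k) (D.a i) * (a k j - a i j) +
    ∑ l, bt D R j l (D.a k) * (a k j - a k l - b j l) + ∑ l, lw D j l * b j l
  have f1 : ∑ i, xi R (D.a k) (D.a i) * (a k j - a i j) =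
      a k j * ∑ i, xi R (D.a k) (D.a i) - ∑ i, a i j * xi R (D.a k) (D.a i) := by
    rw [Finset.mul_sum, ← Finset.sum_sub_distrib]
    exact Finset.sum_congr rfl fun i _ => by ring
  have f2 : ∑ l, bt D R j l (D.a k) * (a k j - a k l - b j l) + ∑ l, lw D j l * b j l =
      a k j * ∑ l, bt D R j l (D.a k) - ∑ l, a k l * bt D R j l (D.a k) -
        ∑ l, b j l * zt D R j l (D.a k) := by
    rw [Finset.mul_sum, ← Finset.sum_add_distrib, ← Finset.sum_sub_distrib,
      ← Finset.sum_sub_distrib]
    refine Finset.sum_congr rfl fun l _ => ?_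
    have h1 : b j l * nu D R j l = 0 := by
      by_cases hp : D.p j = D.p l
      · rw [hf.par j l hp, zero_mul]
      · unfold nu; rw [if_neg hp, mul_zero]
    unfold bt
    linear_combination -h1
  rw [f1]
  linear_combination -f2

theorem valB (hR : 0 < R) (hs : SepT D (4 * R))
    (hf : (wt D R L0 hR hs).Flow a b) {j l : Fin D.n} (hp : D.p j ≠ D.p l) :
    val D R L0 a b j (D.r j l) = (wt D R L0 hR hs).yB a b j l := by
  set c : ℤ := D.r j l with hc
  have hanti : ∀ j l, b l j = -b j l := hf.anti
  have hdl : ∀ i, dl c (D.a i) = 0 := by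
    intro i
    unfold dl
    rw [if_neg (fun h' => D.cross_a j l i hp h'.symm)]
  have hind : ∀ h, ind D j h c = if h = l then 1 else 0 := by
    intro h
    unfold ind
    by_cases hl : h = l
    · subst hl; rw [if_pos ⟨hp, rfl⟩, if_pos rfl]
    · rw [if_neg hl, if_neg]
      rintro ⟨h1, h2⟩
      exact D.no_triple j l h hp h1 (Ne.symm hl) (by rw [h2])
  have hwj : wj D j c = 1 := by
    unfold wj
    simp only [hind, hdl]
    simp
  have hjl : l ≠ j := fun h => hp (by rw [h])
  have hom : ∀ h, om D j c h = (if h = l then 1 else 0) - (if h = j then 1 else 0) := by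
    intro h
    unfold om
    rw [hind, hwj]
  -- the first part
  have e1 : ∑ i, ∑ h, a i h * Phi D R L0 j c (D.a i) h =
      ∑ i, xi R c (D.a i) * (a i l - a i j) := by
    apply Finset.sum_congr rfl
    intro i _
    unfold Phi
    simp only [hom, hdl, mul_zero, sub_zero, mul_sub, Finset.sum_sub_distrib, mul_ite, mul_one,
      Finset.sum_ite_eq', Finset.mem_univ, if_true]
    ring
  -- the second part
  set T1 : ℝ := ∑ h, ∑ i, b h i * bt D R j h c * dl c (D.r h i) with hT1
  have hd0 : ∀ h0 h1 : Fin D.n, D.p h0 ≠ D.p h1 → D.r h0 h1 = c →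
      ∀ i, b h0 i * dl c (D.r h0 i) = if i = h1 then b h0 h1 else 0 := by
    intro h0 h1 hp01 hr i
    by_cases hi : i = h1
    · subst hi
      unfold dl
      rw [if_pos hr, if_pos rfl, mul_one]
    · rw [if_neg hi]
      by_cases hpi : D.p h0 = D.p i
      · rw [hf.par h0 i hpi, zero_mul]
      · unfold dl
        rw [if_neg, mul_zero]
        exact fun h' => D.no_triple h0 h1 i hp01 hpi (Ne.symm hi) (by rw [hr, h'])
  have hdj := hd0 j l hp rfl
  have hdl' := hd0 l j hp.symm (by rw [hc, r_symm D hp])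
  have e2 : ∑ h, ∑ i, b h i * Phi D R L0 j c (D.r h i) h =
      ∑ i, b l i * xi R c (D.r l i) - ∑ i, b j i * xi R c (D.r j i) - T1 +
        b j l * Lam D R L0 j c := by
    have e3 : ∀ h i, b h i * Phi D R L0 j c (D.r h i) h =
        (if h = l then b h i * xi R c (D.r h i) else 0) -
        (if h = j then b h i * xi R c (D.r h i) else 0) -
        b h i * bt D R j h c * dl c (D.r h i) +
        (if h = j then b h i * dl c (D.r h i) * Lam D R L0 j c else 0) := by
      intro h i
      unfold Phi YY
      rw [hom]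
      by_cases h1 : h = j
      · have h2 : h ≠ l := fun h3 => hjl (by rw [← h3, h1])
        rw [if_pos h1, if_neg h2, if_pos h1, if_neg h2, if_pos h1, if_pos h1]; ring
      · rw [if_neg h1, if_neg h1, if_neg h1, if_neg h1]
        split_ifs <;> ring
    simp only [e3, Finset.sum_add_distrib, Finset.sum_sub_distrib]
    have e4 : ∀ (G : Fin D.n → Fin D.n → ℝ) (h0 : Fin D.n),
        ∑ h, ∑ i, (if h = h0 then G h i else 0) = ∑ i, G h0 i := by
      intro G h0
      have : ∀ h, ∑ i, (if h = h0 then G h i else 0) = if h = h0 then ∑ i, G h i else 0 := by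
        intro h
        split_ifs
        · rfl
        · simp
      simp only [this, Finset.sum_ite_eq', Finset.mem_univ, if_true]
    rw [e4 (fun h i => b h i * xi R c (D.r h i)) l, e4 (fun h i => b h i * xi R c (D.r h i)) j,
      e4 (fun h i => b h i * dl c (D.r h i) * Lam D R L0 j c) j, ← Finset.sum_mul]
    simp only [hdj, Finset.sum_ite_eq', Finset.mem_univ, if_true]
    rfl
  -- the value of `T1`
  have hbt : ∀ h, bt D R j h c = Real.log (|((bb D h c - bb D j c : ℤ) : ℝ)| / R) +
      (if h = l then lw D j l else 0) := by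
    intro h
    by_cases hl : h = l
    · subst hl
      rw [if_pos rfl, hc, bt_cross hp]
      have : bb D h (D.r j h) - bb D j (D.r j h) = 0 := by
        rw [bb_np D j h _ hp, sub_self, mul_zero]
      rw [this]
      simp
    · rw [if_neg hl, add_zero]
      by_cases hh : D.p j = D.p h
      · unfold bt nu zt
        rw [if_pos hh, if_pos hh, lw_par hh, add_zero, add_zero]
        have : bb D h c - bb D j c = D.q h - D.q j := by unfold bb; rw [hh]; ring
        rw [this]; push_cast
        rw [abs_sub_comm]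
      · have hrc : D.r j h ≠ c := fun h' =>
          D.no_triple j l h hp hh (Ne.symm hl) (by rw [h'])
        unfold bt nu zt xi
        rw [if_neg hh, if_neg hh, zero_add, bb_np D j h _ hh, lw_np hh]
        have h1 := one_le_p D hh
        have h2 := abs_int_ge (Ne.symm hrc)
        push_cast
        rw [abs_mul, mul_div_assoc, Real.log_mul, add_comm, abs_sub_comm (D.p h : ℝ)]
        · rw [abs_sub_comm]; linarith
        · have : 0 < |(c : ℝ) - D.r j h| := by linarith
          positivity
  have hT1' : T1 = -(lw D j l * b j l) := by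
    rw [hT1, Wt.sum_symm2]
    have f1 : ∀ h i, (1 / 2) * (b h i * bt D R j h c * dl c (D.r h i) +
        b i h * bt D R j i c * dl c (D.r i h)) =
        (1 / 2) * (lw D j l * ((if h = l then b h i * dl c (D.r h i) else 0) +
          (if i = l then b i h * dl c (D.r i h) else 0))) := by
      intro h i
      by_cases hpi : D.p h = D.p i
      · rw [hf.par h i hpi, hf.par i h hpi.symm]
        simp
      by_cases hr : D.r h i = c
      · have hr' : D.r i h = c := by rw [← r_symm D hpi, hr]
        have g2 : bb D h c = bb D i c := by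
          have := D.cross h i hpi
          unfold bb
          rw [← hr]; exact this
        have g1 : dl c (D.r h i) = 1 := by unfold dl; rw [if_pos hr]
        have g1' : dl c (D.r i h) = 1 := by unfold dl; rw [if_pos hr']
        rw [g1, g1', hbt h, hbt i, g2, hanti h i]
        split_ifs <;> ring
      · have hr' : D.r i h ≠ c := by rw [← r_symm D hpi]; exact hr
        have g1 : dl c (D.r h i) = 0 := by unfold dl; rw [if_neg hr]
        have g1' : dl c (D.r i h) = 0 := by unfold dl; rw [if_neg hr']
        rw [g1, g1']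
        simp
    simp only [f1]
    have f2 : ∑ h, ∑ i, (if h = l then b h i * dl c (D.r h i) else 0) = b l j := by
      have : ∀ h, ∑ i, (if h = l then b h i * dl c (D.r h i) else 0) =
          if h = l then ∑ i, b h i * dl c (D.r h i) else 0 := by
        intro h
        split_ifs
        · rfl
        · simp
      simp only [this, Finset.sum_ite_eq', Finset.mem_univ, if_true]
      simp only [hdl', Finset.sum_ite_eq', Finset.mem_univ, if_true]
    have f3 : ∑ h, ∑ i, (if i = l then b i h * dl c (D.r i h) else 0) = b l j := by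
      rw [Finset.sum_comm]
      exact f2
    simp only [← Finset.mul_sum, Finset.sum_add_distrib]
    rw [f2, f3, hanti j l]
    ring
  -- comparison
  have hcol : ∀ l, ∑ k, a k l = -∑ h, b l h := fun l => by
    have := hf.f2 l
    linarith
  unfold val
  rw [e1, e2, hT1']
  unfold Wt.yB Wt.G Lam
  show _ = L0 * b j l + ∑ i, bt D R j l (D.a i) * (b j l + a i l - a i j) +
      ∑ h, EE D R j l h * (b j l + b l h + b h j) - ((D.m : ℝ) + D.n) * (lw D j l * b j l) +
      ∑ h, lw D j h * b j h - ∑ h, lw D l h * b l h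
  have g1 : ∑ i, bt D R j l (D.a i) * (b j l + a i l - a i j) =
      ∑ i, xi R c (D.a i) * (a i l - a i j) + b j l * ∑ i, xi R c (D.a i) +
      lw D j l * (D.m * b j l + (∑ h, b j h - ∑ h, b l h)) := by
    have g2 : ∀ i, bt D R j l (D.a i) * (b j l + a i l - a i j) =
        xi R c (D.a i) * (a i l - a i j) + b j l * xi R c (D.a i) +
        lw D j l * (b j l + a i l - a i j) := by
      intro i
      unfold bt nu zt
      rw [if_neg hp, if_neg hp, xi_symm R (D.a i), ← hc]; ring
    simp only [g2]
    rw [Finset.sum_add_distrib, Finset.sum_add_distrib, ← Finset.mul_sum, ← Finset.mul_sum,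
      Finset.sum_sub_distrib, Finset.sum_add_distrib, hcol, hcol, Finset.sum_const,
      Finset.card_univ, Fintype.card_fin, nsmul_eq_mul]
    ring
  have g3 : ∀ h, EE D R j l h * (b j l + b l h + b h j) =
      b j l * bt D R j h c + b l h * xi R c (D.r l h) - b j h * xi R c (D.r j h) +
      lw D j l * (b j l + b l h - b j h) + lw D l h * b l h - lw D j h * b j h +
      (if h = j then lw D j l * b j l else 0) := by
    intro h
    by_cases hj : h = j
    · subst hj
      rw [if_pos rfl, bt_self, hanti h l, hf.par h h rfl, r_symm D (Ne.symm hp), ← hc, xi_self,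
        lw_symm l h]
      ring
    rw [if_neg hj, add_zero]
    by_cases hl : h = l
    · subst hl
      rw [hf.par h h rfl, hanti j h, hc, bt_cross hp, xi_self]
      ring
    rw [hanti j h]
    have k1 : b j l * EE D R j l h = b j l * (lw D j l + bt D R j h c) := by
      rw [EE_bt hR hs hp hj hl]
    have k2 : b l h * EE D R j l h = b l h * (lw D j l + lw D l h + xi R c (D.r l h)) := by
      by_cases hh : D.p l = D.p h
      · rw [hf.par l h hh, zero_mul, zero_mul]
      · rw [EE_np' hR hs hp hh hj]
    have k3 : b j h * EE D R j l h = b j h * (lw D j l + lw D j h + xi R c (D.r j h)) := by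
      by_cases hh : D.p j = D.p h
      · rw [hf.par j h hh, zero_mul, zero_mul]
      · rw [EE_np hR hs hp hh hl]
    linear_combination k1 + k2 - k3
  have g4 : ∑ h, EE D R j l h * (b j l + b l h + b h j) =
      b j l * ∑ h, bt D R j h c + ∑ h, b l h * xi R c (D.r l h) - ∑ h, b j h * xi R c (D.r j h) +
      lw D j l * (D.n * b j l + (∑ h, b l h - ∑ h, b j h)) + ∑ h, lw D l h * b l h -
      ∑ h, lw D j h * b j h + lw D j l * b j l := by
    simp only [g3]
    rw [Finset.sum_add_distrib, Finset.sum_sub_distrib, Finset.sum_add_distrib,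
      Finset.sum_add_distrib, Finset.sum_sub_distrib, Finset.sum_add_distrib,
      ← Finset.mul_sum, ← Finset.mul_sum, Finset.sum_sub_distrib, Finset.sum_add_distrib,
      Finset.sum_const, Finset.card_univ, Fintype.card_fin, nsmul_eq_mul,
      Finset.sum_ite_eq' Finset.univ j]
    simp only [Finset.mem_univ, if_true]
    ring
  rw [g1, g4]
  ring

end MODW

end MP743d1e.W
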